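import Mathlib

/-!
# TWR: inherence of two-rooted graphs (MP_4a1452_co), definitions

A copy of `(H, s, t)` in `G` is given by an embedding `f : H ↪g G` (the induced subgraph on its range
with the roots `f s`, `f t`).
-/

namespace Pool.Agent.TWR

variable {α V : Type}

/-- `(s', t')` is an extension of the copy `f` of `(H, s, t)`: two further vertices, `f s` is the only
neighbour of `s'` and `f t` is the only neighbour of `t'` in the subgraph induced by the copy and
`s', t'`. -/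
structure IsExt (H : SimpleGraph α) (G : SimpleGraph V) (s t : α) (f : H ↪g G) (s' t' : V) : Prop where
  ne : s' ≠ t'
  s_out : s' ∉ Set.range f
  t_out : t' ∉ Set.range f
  s_adj : ∀ a, G.Adj s' (f a) ↔ a = s
  t_adj : ∀ a, G.Adj t' (f a) ↔ a = t
  nadj : ¬ G.Adj s' t'

/-- The closed neighbourhood of a set of vertices. -/
def closedNbhd (G : SimpleGraph V) (X : Set V) : Set V := {v | v ∈ X ∨ ∃ x ∈ X, G.Adj x v}

/-- `G` has an induced path from `s'` to `t'`, all of whose vertices other than `s'`, `t'` lie outside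
the closed neighbourhood of `X`. -/
def Closable (G : SimpleGraph V) (X : Set V) (s' t' : V) : Prop :=
  ∃ (n : ℕ) (p : Fin (n + 1) → V), Function.Injective p ∧ p 0 = s' ∧ p (Fin.last n) = t' ∧
    (∀ i j : Fin (n + 1), G.Adj (p i) (p j) ↔ (i : ℕ) + 1 = j ∨ (j : ℕ) + 1 = i) ∧
    ∀ i, i ≠ 0 → i ≠ Fin.last n → p i ∉ closedNbhd G X

/-- Every extension of the copy `f` is closable. -/
def Avoidable (H : SimpleGraph α) (G : SimpleGraph V) (s t : α) (f : H ↪g G) : Prop :=
  ∀ s' t', IsExt H G s t f s' t' → Closable G (Set.range f) s' t'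

/-- Every finite graph which contains a copy of `H` contains an avoidable copy of `(H, s, t)`. -/
def Inherent (H : SimpleGraph α) (s t : α) : Prop :=
  ∀ (V : Type) [Finite V] (G : SimpleGraph V), Nonempty (H ↪g G) → ∃ f : H ↪g G, Avoidable H G s t f

/-! ### Properties used in the constructions -/

/-- Private neighbours: a vertex `v` outside a set `X` of at most `K` vertices has a neighbour outside
`X` with no neighbour in `X`. -/
def PrivNbr (G : SimpleGraph V) (K : ℕ) : Prop :=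
  ∀ (v : V) (X : Finset V), X.card ≤ K → v ∉ X →
    ∃ v', G.Adj v v' ∧ v' ∉ X ∧ ∀ x ∈ X, ¬ G.Adj v' x

/-- A gadget: a rooted graph `(R, r)` with levels, private neighbours different from the root, cut-off
branches below every vertex of level `< d`, and no short cycles. -/
structure Gadget (K d : ℕ) where
  carrier : Type
  fin : Finite carrier
  R : SimpleGraph carrier
  r : carrier
  lev : carrier → ℕ
  lev_r : lev r = 0
  lev_adj : ∀ u v, R.Adj u v → lev v ≤ lev u + 1
  priv : ∀ (v : carrier) (X : Finset carrier), X.card ≤ K → v ∉ X →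
    ∃ v', R.Adj v v' ∧ v' ≠ r ∧ v' ∉ X ∧ ∀ x ∈ X, ¬ R.Adj v' x
  branch : ∀ (v : carrier) (X : Finset carrier), X.card ≤ K → lev v < d →
    ∃ B : Set carrier, r ∉ B ∧ v ∉ B ∧ (∀ x ∈ X, x ∉ B) ∧ (∃ b ∈ B, R.Adj v b) ∧
      ∀ b ∈ B, ∀ y, y ∉ B → R.Adj b y → y = v
  thin : ∀ Y : Finset carrier, Y.card ≤ K → (∃ y ∈ Y, y ≠ r) →
    ∃ y ∈ Y, y ≠ r ∧ ∀ z ∈ Y, ∀ w ∈ Y, R.Adj y z → R.Adj y w → z = w

/-- The rooted product of `H` with the gadget: a copy of the gadget is attached by its root at every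
vertex of `H`. -/
def rprod {K d : ℕ} (H : SimpleGraph α) (g : Gadget K d) : SimpleGraph (α × g.carrier) where
  Adj u v := (u.1 = v.1 ∧ g.R.Adj u.2 v.2) ∨ (u.2 = g.r ∧ v.2 = g.r ∧ H.Adj u.1 v.1)
  symm := ⟨fun u v h => by
    rcases h with ⟨h1, h2⟩ | ⟨h1, h2, h3⟩
    · exact Or.inl ⟨h1.symm, h2.symm⟩
    · exact Or.inr ⟨h2, h1, h3.symm⟩⟩
  loopless := ⟨fun u h => by
    rcases h with ⟨_, h2⟩ | ⟨_, _, h3⟩
    · exact g.R.loopless.irrefl _ h2
    · exact H.loopless.irrefl _ h3⟩

theorem rprod_adj {K d : ℕ} (H : SimpleGraph α) (g : Gadget K d) (u v : α × g.carrier) :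
    (rprod H g).Adj u v ↔
      (u.1 = v.1 ∧ g.R.Adj u.2 v.2) ∨ (u.2 = g.r ∧ v.2 = g.r ∧ H.Adj u.1 v.1) := Iff.rfl

end Pool.Agent.TWR
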