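import Pool.Agent.TWR.Paths

/-!
# TWR/CaseDeg: both roots have degree at least two

`G` on `α × Option (Fin (Fintype.card α + 1))`: `(a, none)` and `(b, none)` are adjacent iff `H.Adj a b`,
`(a, none)` and `(a, some i)` are adjacent, nothing else. `G` contains `H`. Let `f : H ↪g G`. A vertex
`(a, some i)` has only one neighbour, so `f s = (a, none)`, `f t = (b, none)` with `a ≠ b`. Choose `i`, `j` with
`(a, some i)`, `(b, some j)` not in the range of `f` (which has `Fintype.card α` elements). They form an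
extension, not closable by `not_closable_of_enclosed` (the only neighbour of `s'` is `f s`). (helper97)
-/

namespace Pool.Agent.TWR

variable {α : Type}

/-- `H` with `m` pendant vertices attached at every vertex. -/
def leafy (H : SimpleGraph α) (m : ℕ) : SimpleGraph (α × Option (Fin m)) where
  Adj u v := (u.2 = none ∧ v.2 = none ∧ H.Adj u.1 v.1) ∨
    (u.1 = v.1 ∧ ((u.2 = none ∧ v.2 ≠ none) ∨ (u.2 ≠ none ∧ v.2 = none)))
  symm := ⟨fun u v h => by
    rcases h with ⟨h1, h2, h3⟩ | ⟨h1, h2 | h2⟩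
    · exact Or.inl ⟨h2, h1, h3.symm⟩
    · exact Or.inr ⟨h1.symm, Or.inr ⟨h2.2, h2.1⟩⟩
    · exact Or.inr ⟨h1.symm, Or.inl ⟨h2.2, h2.1⟩⟩⟩
  loopless := ⟨fun u h => by
    rcases h with ⟨_, _, h3⟩ | ⟨_, h2 | h2⟩
    · exact H.loopless.irrefl _ h3
    · exact h2.2 h2.1
    · exact h2.1 h2.2⟩

theorem leafy_some {H : SimpleGraph α} {m : ℕ} {a : α} {i : Fin m} {v : α × Option (Fin m)} :
    (leafy H m).Adj (a, some i) v ↔ v = (a, none) := by
  constructor
  · rintro (⟨h1, _, _⟩ | ⟨h1, h2 | h2⟩)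
    · exact absurd h1 (by simp)
    · exact absurd h2.1 (by simp)
    · exact Prod.ext h1.symm h2.2
  · rintro rfl
    exact Or.inr ⟨rfl, Or.inr ⟨by simp, rfl⟩⟩

theorem leafy_embeds (H : SimpleGraph α) (m : ℕ) : Nonempty (H ↪g leafy H m) := by
  refine ⟨⟨⟨fun a => (a, none), fun a b h => congrArg Prod.fst h⟩, ?_⟩⟩
  intro a b
  show (leafy H m).Adj (a, none) (b, none) ↔ H.Adj a b
  constructor
  · rintro (⟨_, _, h3⟩ | ⟨_, h2 | h2⟩)
    · exact h3
    · exact absurd rfl h2.2
    · exact absurd rfl h2.1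
  · intro h
    exact Or.inl ⟨rfl, rfl, h⟩

theorem leafy_root {H : SimpleGraph α} {m : ℕ} (f : H ↪g leafy H m) {s : α}
    (hs : ∃ u w, u ≠ w ∧ H.Adj s u ∧ H.Adj s w) : ∃ a, f s = (a, none) := by
  obtain ⟨u, w, huw, h1, h2⟩ := hs
  rcases h : f s with ⟨a, _ | i⟩
  · exact ⟨a, rfl⟩
  · exfalso
    have h3 := f.map_adj_iff.2 h1
    have h4 := f.map_adj_iff.2 h2
    rw [h] at h3 h4
    exact huw (f.injective ((leafy_some.1 h3).trans (leafy_some.1 h4).symm))

theorem leafy_free [Fintype α] {H : SimpleGraph α}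
    (f : H ↪g leafy H (Fintype.card α + 1)) (a : α) :
    ∃ i, (a, some i) ∉ Set.range f := by
  classical
  by_contra hcon
  push Not at hcon
  choose g hg using hcon
  have h2 := Fintype.card_le_of_injective g (by
    intro i j hij
    have h3 : ((a, some i) : α × Option (Fin (Fintype.card α + 1))) = (a, some j) := by
      rw [← hg i, ← hg j, hij]
    exact Option.some_injective _ (congrArg Prod.snd h3))
  rw [Fintype.card_fin] at h2
  omega

theorem case_deg [Fintype α] (H : SimpleGraph α) (s t : α) (hne : s ≠ t)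
    (hs : ∃ u w, u ≠ w ∧ H.Adj s u ∧ H.Adj s w) (ht : ∃ u w, u ≠ w ∧ H.Adj t u ∧ H.Adj t w) :
    ¬ Inherent H s t := by
  intro hI
  obtain ⟨f, hf⟩ := hI _ (leafy H (Fintype.card α + 1)) (leafy_embeds H _)
  obtain ⟨a, ha⟩ := leafy_root f hs
  obtain ⟨b, hb⟩ := leafy_root f ht
  have hab : a ≠ b := by
    intro h
    apply hne
    apply f.injective
    rw [ha, hb, h]
  obtain ⟨i, hi⟩ := leafy_free f a
  obtain ⟨j, hj⟩ := leafy_free f b
  have hext : IsExt H (leafy H (Fintype.card α + 1)) s t f (a, some i) (b, some j) := by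
    refine ⟨fun h => hab (congrArg Prod.fst h), hi, hj, ?_, ?_, ?_⟩
    · intro x
      rw [leafy_some, ← ha]
      exact f.injective.eq_iff
    · intro x
      rw [leafy_some, ← hb]
      exact f.injective.eq_iff
    · rw [leafy_some]
      intro h
      exact absurd (congrArg Prod.snd h) (by simp)
  refine not_closable_of_enclosed hext.ne hext.nadj ?_ (hf _ _ hext)
  intro v hv
  rw [leafy_some] at hv
  exact Or.inl ⟨s, ha.trans hv.symm⟩

end Pool.Agent.TWR
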