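import Pool.Agent.TWR.Paths

/-!
# TWR/CaseForced: both roots are forced

`Forced H x`: `x` has a neighbour `v` all of whose other neighbours are forced (skew zero forcing).

`G`: vertices `(x, y)`, `x y : Fin n → ZMod p`, `n = Fintype.card α`, `p > n + 2` prime;
`bil (x, y) (x', y') = Σ (x i * y' i - x' i * y i)`; adjacency `bil ≠ 0` (alternating, so symmetric and
loopless).
* `symp_embeds`: `a ↦ (e_a, Σ e_b` over the neighbours `b` of `a` with smaller number`)`.
* `forced_solution`: for any `f : H ↪g G` and forced `x` there are `c : α → ZMod p` with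
  `bil (f x) (Σ c j • f j) = 1`, `bil (f i) (Σ c j • f j) = 0` for `i ≠ x`, and `c j ≠ 0 → H.Reachable x j`: induction on `Forced`; with `v`
  from the definition, `bil (f i) (f v)` is `≠ 0` exactly for the neighbours `i` of `v`; subtract
  `bil (f w) (f v)` times the solution of `w` for the forced neighbours `w ≠ x` of `v`, divide by
  `bil (f x) (f v)`.
* `case_forced`: `s₀`, `t₀` the solution vectors of `s`, `t`. There are `p - 1 > n` vectors `l • s₀`, `l ≠ 0`,
  pairwise distinct (`bil (f s) s₀ = 1`), so one of them, `s'`, is not in the range; the same for `t'`.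
  `bil s' t' = 0` since `bil (f i) t₀ = 0` for `i ≠ t` and the coefficient of `f t` in `s₀` is `0` (`hst`).
  `(s', t')` is an extension; a neighbour of `s'` is a neighbour of some `f j`: not closable by
  `not_closable_of_enclosed`.
-/

namespace Pool.Agent.TWR

variable {α : Type}

/-- `x` has a neighbour all of whose other neighbours are forced. -/
inductive Forced (H : SimpleGraph α) : α → Prop
  | step (v x : α) : H.Adj v x → (∀ w, H.Adj v w → w ≠ x → Forced H w) → Forced H x

/-- standard alternating form -/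
def bil {n p : ℕ} (u v : (Fin n → ZMod p) × (Fin n → ZMod p)) : ZMod p :=
  ∑ i, (u.1 i * v.2 i - v.1 i * u.2 i)

/-- non-orthogonality graph -/
def symp (n p : ℕ) : SimpleGraph ((Fin n → ZMod p) × (Fin n → ZMod p)) where
  Adj u v := bil u v ≠ 0
  symm := ⟨fun u v h h' => h (by
    have : bil u v = -bil v u := by
      unfold bil
      rw [← Finset.sum_neg_distrib]
      exact Finset.sum_congr rfl fun i _ => by ring
    rw [this, h', neg_zero])⟩
  loopless := ⟨fun u h => h (by
    unfold bil
    exact Finset.sum_eq_zero fun i _ => by ring)⟩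

/-- the form is linear in the second variable -/
def bilL {n p : ℕ} (u : (Fin n → ZMod p) × (Fin n → ZMod p)) :
    ((Fin n → ZMod p) × (Fin n → ZMod p)) →ₗ[ZMod p] ZMod p where
  toFun v := bil u v
  map_add' v w := by
    unfold bil
    rw [← Finset.sum_add_distrib]
    refine Finset.sum_congr rfl fun i _ => ?_
    simp only [Prod.fst_add, Prod.snd_add, Pi.add_apply]
    ring
  map_smul' c v := by
    unfold bil
    rw [RingHom.id_apply, smul_eq_mul, Finset.mul_sum]
    refine Finset.sum_congr rfl fun i _ => ?_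
    simp only [Prod.smul_fst, Prod.smul_snd, Pi.smul_apply, smul_eq_mul]
    ring

theorem bilL_apply {n p : ℕ} (u v : (Fin n → ZMod p) × (Fin n → ZMod p)) : bilL u v = bil u v := rfl

theorem bil_smul {n p : ℕ} (u v : (Fin n → ZMod p) × (Fin n → ZMod p)) (c : ZMod p) :
    bil u (c • v) = c * bil u v := by
  have := (bilL u).map_smul c v
  simpa only [bilL_apply, smul_eq_mul] using this

theorem bil_sum {n p : ℕ} {ι : Type} (s : Finset ι) (u : (Fin n → ZMod p) × (Fin n → ZMod p))
    (c : ι → ZMod p) (g : ι → (Fin n → ZMod p) × (Fin n → ZMod p)) :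
    bil u (∑ j ∈ s, c j • g j) = ∑ j ∈ s, c j * bil u (g j) := by
  have := map_sum (bilL u) (fun j => c j • g j) s
  simpa only [bilL_apply, bil_smul] using this

theorem bil_swap {n p : ℕ} (u v : (Fin n → ZMod p) × (Fin n → ZMod p)) : bil u v = -bil v u := by
  unfold bil
  rw [← Finset.sum_neg_distrib]
  exact Finset.sum_congr rfl fun i _ => by ring

theorem symp_embeds [Fintype α] (H : SimpleGraph α) {p : ℕ} (hp : p.Prime) :
    Nonempty (H ↪g symp (Fintype.card α) p) := by
  classical
  haveI := Fact.mk hp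
  let e := Fintype.equivFin α
  let w : α → Fin (Fintype.card α) → ZMod p := fun a j =>
    if j < e a ∧ H.Adj a (e.symm j) then 1 else 0
  let v : α → (Fin (Fintype.card α) → ZMod p) × (Fin (Fintype.card α) → ZMod p) := fun a =>
    (Pi.single (e a) 1, w a)
  have hbil : ∀ a b, bil (v a) (v b) = w b (e a) - w a (e b) := by
    intro a b
    unfold bil
    rw [Finset.sum_sub_distrib]
    congr 1
    · rw [Finset.sum_eq_single (e a)]
      · simp [v]
      · intro i _ hi
        simp [v, hi]
      · intro h
        exact absurd (Finset.mem_univ _) h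
    · rw [Finset.sum_eq_single (e b)]
      · simp [v]
      · intro i _ hi
        simp [v, hi]
      · intro h
        exact absurd (Finset.mem_univ _) h
  have hadj : ∀ a b, bil (v a) (v b) ≠ 0 ↔ H.Adj a b := by
    intro a b
    rw [hbil]
    simp only [w, Equiv.symm_apply_apply]
    constructor
    · intro h
      by_contra hn
      apply h
      rw [if_neg (fun h' => hn h'.2.symm), if_neg (fun h' => hn h'.2), sub_zero]
    · intro h
      have hne : e a ≠ e b := fun h' => h.ne (e.injective h')
      rcases lt_or_gt_of_ne hne with hlt | hgt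
      · rw [if_pos ⟨hlt, h.symm⟩, if_neg (fun h' => absurd h'.1 (not_lt.2 hlt.le)), sub_zero]
        exact one_ne_zero
      · rw [if_neg (fun h' => absurd h'.1 (not_lt.2 hgt.le)), if_pos ⟨hgt, h⟩, zero_sub]
        exact neg_ne_zero.2 one_ne_zero
  refine ⟨⟨⟨v, ?_⟩, ?_⟩⟩
  · intro a b hab
    have h1 : (Pi.single (e a) 1 : Fin (Fintype.card α) → ZMod p) = Pi.single (e b) 1 :=
      congrArg Prod.fst hab
    by_contra hne
    have h2 := congrFun h1 (e a)
    rw [Pi.single_eq_same, Pi.single_eq_of_ne (fun h => hne (e.injective h))] at h2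
    exact one_ne_zero h2
  · intro a b
    exact hadj a b

theorem forced_solution [Fintype α] {H : SimpleGraph α} {n p : ℕ} (hp : p.Prime)
    (f : H ↪g symp n p) {x : α} (hx : Forced H x) : ∃ c : α → ZMod p,
      bil (f x) (∑ j, c j • f j) = 1 ∧ (∀ i, i ≠ x → bil (f i) (∑ j, c j • f j) = 0) ∧
        ∀ j, c j ≠ 0 → H.Reachable x j := by
  classical
  haveI := Fact.mk hp
  have hadj : ∀ a b, bil (f a) (f b) ≠ 0 ↔ H.Adj a b := fun a b => f.map_adj_iff
  induction hx with
  | step v x hvx _ ih =>
    have ih' : ∀ w, ∃ c : α → ZMod p, H.Adj v w → w ≠ x →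
        bil (f w) (∑ j, c j • f j) = 1 ∧ (∀ i, i ≠ w → bil (f i) (∑ j, c j • f j) = 0) ∧
        ∀ j, c j ≠ 0 → H.Reachable w j := by
      intro w
      by_cases h : H.Adj v w ∧ w ≠ x
      · obtain ⟨c, hc⟩ := ih w h.1 h.2
        exact ⟨c, fun _ _ => hc⟩
      · exact ⟨0, fun h1 h2 => absurd ⟨h1, h2⟩ h⟩
    choose c hc using ih'
    set D : Finset α := Finset.univ.filter (fun w => H.Adj v w ∧ w ≠ x) with hD
    have hmD : ∀ w, w ∈ D ↔ H.Adj v w ∧ w ≠ x := fun w => by simp [hD]
    set β : ZMod p := bil (f x) (f v) with hβ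
    have hβ0 : β ≠ 0 := (hadj x v).2 hvx.symm
    set S : α → (Fin n → ZMod p) × (Fin n → ZMod p) := fun w => ∑ j, c w j • f j with hS
    set c' : α → ZMod p := fun j =>
      β⁻¹ * ((if j = v then 1 else 0) - ∑ w ∈ D, bil (f w) (f v) * c w j) with hc'
    have hval : ∀ i, bil (f i) (∑ j, c' j • f j) =
        β⁻¹ * (bil (f i) (f v) - ∑ w ∈ D, bil (f w) (f v) * bil (f i) (S w)) := by
      intro i
      rw [bil_sum]
      have h1 : ∀ j, c' j * bil (f i) (f j) = β⁻¹ * ((if j = v then 1 else 0) * bil (f i) (f j) -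
          ∑ w ∈ D, bil (f w) (f v) * (c w j * bil (f i) (f j))) := by
        intro j
        simp only [hc']
        rw [mul_assoc, sub_mul, Finset.sum_mul]
        congr 2
        refine Finset.sum_congr rfl fun w _ => ?_
        ring
      simp only [h1]
      rw [← Finset.mul_sum, Finset.sum_sub_distrib, Finset.sum_comm]
      congr 2
      · simp
      · refine Finset.sum_congr rfl fun w _ => ?_
        rw [← Finset.mul_sum]
        simp only [hS]
        rw [bil_sum]
    have hSw : ∀ w ∈ D, bil (f w) (S w) = 1 ∧ ∀ i, i ≠ w → bil (f i) (S w) = 0 := by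
      intro w hw
      rw [hmD] at hw
      have := hc w hw.1 hw.2
      exact ⟨this.1, this.2.1⟩
    refine ⟨c', ?_, ?_, ?_⟩
    · rw [hval]
      have h1 : ∑ w ∈ D, bil (f w) (f v) * bil (f x) (S w) = 0 := by
        refine Finset.sum_eq_zero fun w hw => ?_
        rw [(hSw w hw).2 x (fun h => ((hmD w).1 hw).2 h.symm), mul_zero]
      rw [h1, sub_zero]
      exact inv_mul_cancel₀ hβ0
    · intro i hi
      rw [hval]
      by_cases hiD : i ∈ D
      · have h1 : ∑ w ∈ D, bil (f w) (f v) * bil (f i) (S w) = bil (f i) (f v) := by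
          rw [Finset.sum_eq_single i]
          · rw [(hSw i hiD).1, mul_one]
          · intro w hw hwi
            rw [(hSw w hw).2 i hwi.symm, mul_zero]
          · intro h
            exact absurd hiD h
        rw [h1, sub_self, mul_zero]
      · have h1 : ∑ w ∈ D, bil (f w) (f v) * bil (f i) (S w) = 0 := by
          refine Finset.sum_eq_zero fun w hw => ?_
          rw [(hSw w hw).2 i (fun h => hiD (h ▸ hw)), mul_zero]
        have h2 : bil (f i) (f v) = 0 := by
          by_contra h3
          exact hiD ((hmD i).2 ⟨((hadj i v).1 h3).symm, hi⟩)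
        rw [h1, h2, sub_zero, mul_zero]
    · intro j hj
      have hxv : H.Reachable x v := hvx.symm.reachable
      by_cases hjv : j = v
      · rw [hjv]
        exact hxv
      · by_contra hr
        apply hj
        have h1 : ∀ w ∈ D, bil (f w) (f v) * c w j = 0 := by
          intro w hw
          have h2 := (hmD w).1 hw
          by_cases h3 : c w j = 0
          · rw [h3, mul_zero]
          · exact absurd (hxv.trans (h2.1.reachable.trans ((hc w h2.1 h2.2).2.2 j h3))) hr
        simp only [hc']
        rw [if_neg hjv, Finset.sum_eq_zero h1, sub_zero, mul_zero]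

theorem exists_multiple [Fintype α] {H : SimpleGraph α} {n p : ℕ} (hp : p.Prime)
    (hpn : Fintype.card α + 1 < p) (f : H ↪g symp n p) (s : α)
    (s₀ : (Fin n → ZMod p) × (Fin n → ZMod p)) (hs : bil (f s) s₀ = 1) :
    ∃ l : ZMod p, l ≠ 0 ∧ l • s₀ ∉ Set.range f := by
  classical
  haveI := Fact.mk hp
  haveI : NeZero p := ⟨hp.ne_zero⟩
  by_contra hcon
  push Not at hcon
  have h1 : ∀ l : ZMod p, ∃ a : α, l ≠ 0 → f a = l • s₀ := by
    intro l
    by_cases h : l = 0
    · exact ⟨s, fun h' => absurd h h'⟩
    · obtain ⟨a, ha⟩ := hcon l h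
      exact ⟨a, fun _ => ha⟩
  choose g hg using h1
  have h2 : (Finset.univ.erase (0 : ZMod p)).card ≤ (Finset.univ : Finset α).card := by
    apply Finset.card_le_card_of_injOn g (fun _ _ => Finset.mem_coe.2 (Finset.mem_univ _))
    intro l hl l' hl' hll
    have hl0 : l ≠ 0 := Finset.ne_of_mem_erase (Finset.mem_coe.1 hl)
    have hl0' : l' ≠ 0 := Finset.ne_of_mem_erase (Finset.mem_coe.1 hl')
    have h3 : l • s₀ = l' • s₀ := by rw [← hg l hl0, ← hg l' hl0', hll]
    have h4 := congrArg (bil (f s)) h3
    rw [bil_smul, bil_smul, hs, mul_one, mul_one] at h4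
    exact h4
  rw [Finset.card_erase_of_mem (Finset.mem_univ _), Finset.card_univ, ZMod.card,
    Finset.card_univ] at h2
  omega

theorem case_forced [Fintype α] (H : SimpleGraph α) (s t : α) (hst : ¬ H.Reachable s t)
    (hs : Forced H s) (ht : Forced H t) : ¬ Inherent H s t := by
  classical
  intro hI
  obtain ⟨p, hp1, hp⟩ := Nat.exists_infinite_primes (Fintype.card α + 3)
  haveI := Fact.mk hp
  haveI : NeZero p := ⟨hp.ne_zero⟩
  obtain ⟨f, hf⟩ := hI _ (symp (Fintype.card α) p) (symp_embeds H hp)
  obtain ⟨c, hc1, hc2, hc3⟩ := forced_solution hp f hs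
  obtain ⟨d, hd1, hd2, hd3⟩ := forced_solution hp f ht
  obtain ⟨l, hl0, hl⟩ := exists_multiple hp (by omega) f s _ hc1
  obtain ⟨k, hk0, hk⟩ := exists_multiple hp (by omega) f t _ hd1
  set s₀ := ∑ j, c j • f j with hs₀
  set t₀ := ∑ j, d j • f j with ht₀
  have hne : s ≠ t := fun h => hst (h ▸ SimpleGraph.Reachable.refl _)
  have hb1 : ∀ a, bil (f a) (l • s₀) = if a = s then l else 0 := by
    intro a
    rw [bil_smul]
    split_ifs with h
    · rw [h, hc1, mul_one]
    · rw [hc2 a h, mul_zero]
  have hb2 : ∀ a, bil (f a) (k • t₀) = if a = t then k else 0 := by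
    intro a
    rw [bil_smul]
    split_ifs with h
    · rw [h, hd1, mul_one]
    · rw [hd2 a h, mul_zero]
  have hst0 : bil (l • s₀) (k • t₀) = 0 := by
    rw [bil_swap, bil_smul, hs₀, bil_sum, neg_eq_zero]
    have : ∑ j, c j * bil (k • t₀) (f j) = 0 := by
      refine Finset.sum_eq_zero fun j _ => ?_
      rw [bil_swap, hb2]
      split_ifs with h
      · have : c j = 0 := by
          by_contra h'
          exact hst (h ▸ hc3 j h')
        rw [this, zero_mul]
      · rw [neg_zero, mul_zero]
    rw [this, mul_zero]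
  have hext : IsExt H (symp (Fintype.card α) p) s t f (l • s₀) (k • t₀) := by
    refine ⟨?_, hl, hk, ?_, ?_, ?_⟩
    · intro h
      have h1 := hb1 s
      rw [h, hb2, if_neg hne, if_pos rfl] at h1
      exact hl0 h1.symm
    · intro a
      show bil (l • s₀) (f a) ≠ 0 ↔ a = s
      rw [bil_swap, hb1]
      by_cases h : a = s
      · simp [h, hl0]
      · simp [h]
    · intro a
      show bil (k • t₀) (f a) ≠ 0 ↔ a = t
      rw [bil_swap, hb2]
      by_cases h : a = t
      · simp [h, hk0]
      · simp [h]
    · exact fun h => h hst0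
  refine not_closable_of_enclosed hext.ne hext.nadj ?_ (hf _ _ hext)
  intro v hv
  have hv' : bil (l • s₀) v ≠ 0 := hv
  rw [bil_swap, bil_smul, hs₀, bil_sum] at hv'
  have h1 : ∃ j, bil v (f j) ≠ 0 := by
    by_contra hcon
    push Not at hcon
    apply hv'
    rw [Finset.sum_eq_zero (fun j _ => by rw [hcon j, mul_zero]), mul_zero, neg_zero]
  obtain ⟨j, hj⟩ := h1
  exact Or.inr ⟨f j, ⟨j, rfl⟩, (show (symp (Fintype.card α) p).Adj v (f j) from hj).symm⟩

end Pool.Agent.TWR
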