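import Pool.Agent.TWR.Defs

/-!
# TWR/Paths: when is an extension not closable, symmetry

* `not_closable_of_enclosed`: in a path `p` as in `Closable`, `n ≠ 0` (`s' ≠ t'`), `n ≠ 1` (`s'`, `t'` not
  adjacent), so `p 1` is an interior vertex adjacent to `s'`.
* `not_closable_of_cut`: let `i` be the last index with `p j ∈ B` for all `j ≤ i` (e.g. `Nat.find`); then
  `p (i + 1) ∉ B` is adjacent to `p i`, so it is in `X`, hence `≠ t'` and in the closed neighbourhood, and it
  is `≠ s'`: a contradiction.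
* `Closable.symm`: reverse the path (`p ∘ Fin.rev`).
-/

namespace Pool.Agent.TWR

variable {α V : Type}

theorem not_closable_of_enclosed {G : SimpleGraph V} {X : Set V} {s' t' : V} (hne : s' ≠ t')
    (hadj : ¬ G.Adj s' t') (h : ∀ v, G.Adj s' v → v ∈ closedNbhd G X) : ¬ Closable G X s' t' := by
  rintro ⟨n, p, _, h0, hl, hp, hint⟩
  have hn0 : n ≠ 0 := by
    rintro rfl
    exact hne (h0.symm.trans hl)
  have hn1 : n ≠ 1 := by
    rintro rfl
    apply hadj
    rw [← h0, ← hl, hp]
    exact Or.inl rfl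
  have h1 : G.Adj s' (p ⟨1, by omega⟩) := by
    rw [← h0, hp]
    exact Or.inl rfl
  refine hint ⟨1, by omega⟩ ?_ ?_ (h _ h1)
  · intro h2
    have := congrArg Fin.val h2
    simp at this
  · intro h2
    have := congrArg Fin.val h2
    simp at this
    omega

theorem not_closable_of_cut {G : SimpleGraph V} {X : Set V} {s' t' : V} {B : Set V} (hs : s' ∈ B)
    (ht : t' ∉ B) (htX : t' ∉ X) (hB : ∀ b ∈ B, ∀ y, y ∉ B → G.Adj b y → y ∈ X) :
    ¬ Closable G X s' t' := by
  classical
  rintro ⟨n, p, _, h0, hl, hp, hint⟩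
  have hex : ∃ k, ∃ hk : k < n + 1, p ⟨k, hk⟩ ∉ B := by
    refine ⟨n, by omega, ?_⟩
    have : (⟨n, by omega⟩ : Fin (n + 1)) = Fin.last n := rfl
    rw [this, hl]
    exact ht
  obtain ⟨hk, hkB⟩ := Nat.find_spec hex
  have hmin := fun j (hj : j < Nat.find hex) => Nat.find_min hex hj
  generalize Nat.find hex = k at hk hkB hmin
  have hk0 : k ≠ 0 := by
    rintro rfl
    apply hkB
    have : (⟨0, hk⟩ : Fin (n + 1)) = 0 := rfl
    rw [this, h0]
    exact hs
  have hpred : p ⟨k - 1, by omega⟩ ∈ B := by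
    by_contra hc
    exact hmin (k - 1) (by omega) ⟨by omega, hc⟩
  have hadj : G.Adj (p ⟨k - 1, by omega⟩) (p ⟨k, hk⟩) := by
    rw [hp]
    left
    show k - 1 + 1 = k
    omega
  have hX := hB _ hpred _ hkB hadj
  refine hint ⟨k, hk⟩ ?_ ?_ (Or.inl hX)
  · intro h2
    exact hk0 (congrArg Fin.val h2)
  · intro h2
    rw [h2, hl] at hX
    exact htX hX

theorem Closable.symm {G : SimpleGraph V} {X : Set V} {s' t' : V} (h : Closable G X s' t') :
    Closable G X t' s' := by
  obtain ⟨n, p, hinj, h0, hl, hp, hint⟩ := h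
  refine ⟨n, p ∘ Fin.rev, hinj.comp Fin.rev_injective, ?_, ?_, ?_, ?_⟩
  · simp [Function.comp, hl]
  · simp [Function.comp, h0]
  · intro i j
    show G.Adj (p i.rev) (p j.rev) ↔ _
    rw [hp, Fin.val_rev, Fin.val_rev]
    have := i.isLt
    have := j.isLt
    omega
  · intro i hi hi'
    refine hint _ ?_ ?_
    · intro h2
      apply hi'
      rw [← Fin.rev_rev i, h2]
      simp
    · intro h2
      apply hi
      rw [← Fin.rev_rev i, h2]
      simp

theorem IsExt.symm {H : SimpleGraph α} {G : SimpleGraph V} {s t : α} {f : H ↪g G} {s' t' : V}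
    (h : IsExt H G s t f s' t') : IsExt H G t s f t' s' :=
  ⟨h.ne.symm, h.t_out, h.s_out, h.t_adj, h.s_adj, fun h' => h.nadj h'.symm⟩

theorem Inherent.symm {H : SimpleGraph α} {s t : α} (h : Inherent H s t) : Inherent H t s := by
  intro V _ G hG
  obtain ⟨f, hf⟩ := h V G hG
  exact ⟨f, fun s' t' he => (hf t' s' he.symm).symm⟩

end Pool.Agent.TWR
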