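import Pool.Agent.TWR.Cayley

/-!
# TWR/Step: one more level of the tree

Carrier `Option (Fin (K + 1) × g.carrier)`, root `none`, adjacent exactly to the `some (i, g.r)`;
`some (i, y)` and `some (j, z)` are adjacent iff `i = j` and `g.R.Adj y z`. Levels: `0` for `none`,
`g.lev y + 1` for `some (i, y)`.
* `priv`: for `v = none` take `i` such that no `some (i, _)` is in `X` (`X.card ≤ K < K + 1`) and
  `v' = some (i, g.r)`; for `v = some (i, y)` use `g.priv` for `{z | some (i, z) ∈ X}` (its `v' ≠ g.r` is not
  adjacent to `none`).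
* `branch`: for `v = none` take `i` as before and `B = {some (i, y) | y}`; for `v = some (i, y)` with
  `g.lev y < d` use `g.branch` for `{z | some (i, z) ∈ X}`, `B = {some (i, b) | b ∈ B₀}` (`g.r ∉ B₀`).
* `thin`: `Y ∋ some (i, y)`. If some `Y_i = {z | some (i, z) ∈ Y}` contains a vertex `≠ g.r`, `g.thin` for
  `Y_i` gives `y ≠ g.r` (not adjacent to `none`). Otherwise `y = g.r`, and the only possible neighbour of
  `some (i, g.r)` in `Y` is `none` (`g.R` has no loops).
-/

namespace Pool.Agent.TWR

/-- The vertices `y` with `some (i, y) ∈ X`. -/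
private noncomputable def sec {K : ℕ} {C : Type} (X : Finset (Option (Fin (K + 1) × C)))
    (i : Fin (K + 1)) : Finset C :=
  X.preimage (fun y => some (i, y)) (fun a _ b _ h => by
    have h1 := Option.some.inj h
    exact (Prod.mk.inj h1).2)

private theorem mem_sec {K : ℕ} {C : Type} (X : Finset (Option (Fin (K + 1) × C)))
    (i : Fin (K + 1)) (y : C) : y ∈ sec X i ↔ some (i, y) ∈ X := by
  unfold sec
  rw [Finset.mem_preimage]

private theorem card_sec {K : ℕ} {C : Type} (X : Finset (Option (Fin (K + 1) × C)))
    (i : Fin (K + 1)) : (sec X i).card ≤ X.card :=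
  Finset.card_le_card_of_injOn (fun y => some (i, y))
    (fun y hy => (mem_sec X i y).mp hy)
    (fun a _ b _ h => by
      have h1 := Option.some.inj h
      exact (Prod.mk.inj h1).2)

private theorem exists_free {K : ℕ} {C : Type} (X : Finset (Option (Fin (K + 1) × C)))
    (hX : X.card ≤ K) : ∃ i, ∀ y, some (i, y) ∉ X := by
  by_contra hc
  push Not at hc
  choose f hf using hc
  have h1 : (Finset.univ : Finset (Fin (K + 1))).card ≤ X.card :=
    Finset.card_le_card_of_injOn (fun i => some (i, f i)) (fun i _ => hf i)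
      (fun a _ b _ h => by
        have h1 := Option.some.inj h
        exact (Prod.mk.inj h1).1)
  rw [Finset.card_univ, Fintype.card_fin] at h1
  omega

/-- The graph of the construction. -/
private def sgraph {K d : ℕ} (g : Gadget K d) : SimpleGraph (Option (Fin (K + 1) × g.carrier)) where
  Adj u v := match u, v with
    | none, none => False
    | none, some (_, z) => z = g.r
    | some (_, y), none => y = g.r
    | some (i, y), some (j, z) => i = j ∧ g.R.Adj y z
  symm := ⟨fun u v h => by
    rcases u with _ | ⟨i, y⟩ <;> rcases v with _ | ⟨j, z⟩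
    · exact h
    · exact h
    · exact h
    · exact ⟨h.1.symm, h.2.symm⟩⟩
  loopless := ⟨fun u h => by
    rcases u with _ | ⟨i, y⟩
    · exact h
    · exact g.R.loopless.irrefl _ h.2⟩

/-- The levels. -/
private def slev {K d : ℕ} (g : Gadget K d) : Option (Fin (K + 1) × g.carrier) → ℕ
  | none => 0
  | some (_, y) => g.lev y + 1

theorem step {K d : ℕ} (g : Gadget K d) : Nonempty (Gadget K (d + 1)) := by
  have := g.fin
  refine ⟨{ carrier := Option (Fin (K + 1) × g.carrier), fin := inferInstance, R := sgraph g,
            r := none, lev := slev g, lev_r := rfl, lev_adj := ?_, priv := ?_, branch := ?_,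
            thin := ?_ }⟩
  · intro u v h
    rcases u with _ | ⟨i, y⟩ <;> rcases v with _ | ⟨j, z⟩
    · exact h.elim
    · have h1 : z = g.r := h
      change g.lev z + 1 ≤ 0 + 1
      rw [h1, g.lev_r]
    · exact Nat.zero_le _
    · have h1 := g.lev_adj y z h.2
      change g.lev z + 1 ≤ g.lev y + 1 + 1
      omega
  · intro v X hX hv
    rcases v with _ | ⟨i, y⟩
    · obtain ⟨i, hi⟩ := exists_free X hX
      refine ⟨some (i, g.r), rfl, Option.some_ne_none _, hi _, ?_⟩
      intro x hx hadj
      rcases x with _ | ⟨j, z⟩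
      · exact hv hx
      · have h1 : i = j := hadj.1
        rw [← h1] at hx
        exact hi z hx
    · obtain ⟨v', h1, h2, h3, h4⟩ := g.priv y (sec X i) ((card_sec X i).trans hX)
        (fun h => hv ((mem_sec X i y).mp h))
      refine ⟨some (i, v'), ⟨rfl, h1⟩, Option.some_ne_none _,
        fun h => h3 ((mem_sec X i v').mpr h), ?_⟩
      intro x hx hadj
      rcases x with _ | ⟨j, z⟩
      · exact h2 hadj
      · have e1 : i = j := hadj.1
        rw [← e1] at hx
        exact h4 z ((mem_sec X i z).mpr hx) hadj.2
  · intro v X hX hv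
    rcases v with _ | ⟨i, y⟩
    · obtain ⟨i, hi⟩ := exists_free X hX
      refine ⟨{b | ∃ y, b = some (i, y)}, ?_, ?_, ?_, ?_, ?_⟩
      · rintro ⟨y, hy⟩
        exact (Option.some_ne_none _) hy.symm
      · rintro ⟨y, hy⟩
        exact (Option.some_ne_none _) hy.symm
      · rintro x hx ⟨y, rfl⟩
        exact hi y hx
      · exact ⟨some (i, g.r), ⟨g.r, rfl⟩, rfl⟩
      · rintro b ⟨z, rfl⟩ w hw hadj
        rcases w with _ | ⟨j, w⟩
        · rfl
        · have e1 : i = j := hadj.1
          exact absurd ⟨w, by rw [e1]⟩ hw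
    · have hl : g.lev y < d := by
        have h1 : g.lev y + 1 < d + 1 := hv
        omega
      obtain ⟨B, h1, h2, h3, ⟨b, hb, hb'⟩, h5⟩ := g.branch y (sec X i) ((card_sec X i).trans hX) hl
      refine ⟨{c | ∃ b ∈ B, c = some (i, b)}, ?_, ?_, ?_, ?_, ?_⟩
      · rintro ⟨c, _, hc⟩
        exact (Option.some_ne_none _) hc.symm
      · rintro ⟨c, hc, hc'⟩
        have e1 := (Prod.mk.inj (Option.some.inj hc')).2
        rw [e1] at h2
        exact h2 hc
      · rintro x hx ⟨c, hc, rfl⟩
        exact h3 c ((mem_sec X i c).mpr hx) hc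
      · exact ⟨some (i, b), ⟨b, hb, rfl⟩, ⟨rfl, hb'⟩⟩
      · rintro c ⟨c, hc, rfl⟩ w hw hadj
        rcases w with _ | ⟨j, w⟩
        · have e1 : c = g.r := hadj
          rw [e1] at hc
          exact absurd hc h1
        · have e1 : i = j := hadj.1
          have e2 : w ∉ B := fun h => hw ⟨w, h, by rw [e1]⟩
          have e3 := h5 c hc w e2 hadj.2
          rw [← e1, e3]
  · intro Y hY hne
    obtain ⟨y, hy, hy'⟩ := hne
    by_cases hex : ∃ i, ∃ z ∈ sec Y i, z ≠ g.r
    · obtain ⟨i, hi⟩ := hex
      obtain ⟨w, hw, hwr, hw2⟩ := g.thin (sec Y i) ((card_sec Y i).trans hY) hi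
      refine ⟨some (i, w), (mem_sec Y i w).mp hw, Option.some_ne_none _, ?_⟩
      intro a ha b hb h1 h2
      rcases a with _ | ⟨j, a⟩
      · exact absurd h1 hwr
      · rcases b with _ | ⟨k, b⟩
        · exact absurd h2 hwr
        · have e1 : i = j := h1.1
          have e2 : i = k := h2.1
          subst e1
          subst e2
          rw [hw2 a ((mem_sec Y i a).mpr ha) b ((mem_sec Y i b).mpr hb) h1.2 h2.2]
    · push Not at hex
      rcases y with _ | ⟨i, y⟩
      · exact absurd rfl hy'
      · have e0 : y = g.r := hex i y ((mem_sec Y i y).mpr hy)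
        refine ⟨some (i, y), hy, hy', ?_⟩
        have key : ∀ a ∈ Y, (sgraph g).Adj (some (i, y)) a → a = none := by
          intro a ha h1
          rcases a with _ | ⟨j, a⟩
          · rfl
          · exfalso
            have e1 : i = j := h1.1
            rw [← e1] at ha
            have e2 : a = g.r := hex i a ((mem_sec Y i a).mpr ha)
            have e3 : g.R.Adj y a := h1.2
            rw [e0, e2] at e3
            exact g.R.loopless.irrefl _ e3
        intro a ha b hb h1 h2
        rw [key a ha h1, key b hb h2]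

theorem exists_gadget (K d : ℕ) : Nonempty (Gadget K d) := by
  induction d with
  | zero => exact base_gadget K
  | succ d ih => exact step ih.some

end Pool.Agent.TWR
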