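import Pool.Agent.TWR.RProd
import Pool.Agent.TWR.Step
import Pool.Agent.TWR.Paths

/-!
# TWR/CaseIso: `t` is isolated and `s` has no true twin

`G₀ = rprod H g` for a gadget `g : Gadget (Fintype.card α) 0`; only `rprod_embeds` and `rprod_priv` are
used. `G` on `V₀ × Bool`: `(x, a)` and `(y, b)` are adjacent iff `G₀.Adj x y` or (`x = y` and `a ≠ b`).
`G` contains `H`. Let `f : H ↪g G`, `f t = (y, b)`, `t' = (y, !b)`; `f s = (x, a)`. For `c ≠ s`, `(f c).1 ≠ x`:
otherwise `f c = (x, !a)` and `c` is a true twin of `s`. Let `v` be a private neighbour of `x` in `G₀` with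
respect to `{(f c).1 | c ≠ s}` and `s' = (v, false)`. `(s', t')` is an extension: `t'` is not in the range and not
adjacent to `f c`, `c ≠ t`, as then `f c` would be adjacent to `f t`. Not closable by
`not_closable_of_enclosed` (for `t'`, with `Closable.symm`): a neighbour of `t'` is `f t` or a neighbour of `f t`.
-/

namespace Pool.Agent.TWR

variable {α : Type}

/-- Two adjacent copies of every vertex. -/
def dbl {V₀ : Type} (G₀ : SimpleGraph V₀) : SimpleGraph (V₀ × Bool) where
  Adj u v := G₀.Adj u.1 v.1 ∨ (u.1 = v.1 ∧ u.2 ≠ v.2)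
  symm := ⟨fun u v h => by
    rcases h with h | ⟨h1, h2⟩
    · exact Or.inl h.symm
    · exact Or.inr ⟨h1.symm, h2.symm⟩⟩
  loopless := ⟨fun u h => by
    rcases h with h | ⟨_, h2⟩
    · exact G₀.loopless.irrefl _ h
    · exact h2 rfl⟩

theorem dbl_adj {V₀ : Type} (G₀ : SimpleGraph V₀) (u v : V₀ × Bool) :
    (dbl G₀).Adj u v ↔ G₀.Adj u.1 v.1 ∨ (u.1 = v.1 ∧ u.2 ≠ v.2) := Iff.rfl

theorem case_isolated [Fintype α] (H : SimpleGraph α) (s t : α) (hne : s ≠ t)
    (ht : ∀ a, ¬ H.Adj t a)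
    (hs : ∀ u, H.Adj s u → ∃ w, w ≠ s ∧ w ≠ u ∧ ¬ (H.Adj s w ↔ H.Adj u w)) :
    ¬ Inherent H s t := by
  classical
  intro hI
  obtain ⟨g⟩ := exists_gadget (Fintype.card α) 0
  haveI := g.fin
  set G₀ := rprod H g with hG₀
  obtain ⟨e⟩ := rprod_embeds H g
  have hemb : Nonempty (H ↪g dbl G₀) := by
    refine ⟨⟨⟨fun a => (e a, false), fun a b h => e.injective (Prod.ext_iff.1 h).1⟩, ?_⟩⟩
    intro a b
    change (dbl G₀).Adj (e a, false) (e b, false) ↔ H.Adj a b
    rw [dbl_adj]
    simp [hG₀]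
  obtain ⟨f, hf⟩ := hI ((α × g.carrier) × Bool) (dbl G₀) hemb
  have hfadj : ∀ c c', (dbl G₀).Adj (f c) (f c') ↔ H.Adj c c' := fun c c' => f.map_adj_iff
  have hinj : Function.Injective f := f.injective
  have h1 : ∀ c, c ≠ s → (f c).1 ≠ (f s).1 := by
    intro c hc he
    have h2 : (f c).2 ≠ (f s).2 := fun h => hc (hinj (Prod.ext he h))
    have h3 : H.Adj s c := (hfadj s c).1 (Or.inr ⟨he.symm, h2.symm⟩)
    obtain ⟨w, hws, hwc, hw⟩ := hs c h3
    apply hw
    have h4 : (f w).1 ≠ (f s).1 := by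
      intro h5
      have h6 : (f w).2 ≠ (f s).2 := fun h => hws (hinj (Prod.ext h5 h))
      have h7 : (f w).2 ≠ (f c).2 := fun h => hwc (hinj (Prod.ext (h5.trans he.symm) h))
      revert h2 h6 h7
      cases (f w).2 <;> cases (f s).2 <;> cases (f c).2 <;> simp
    rw [← hfadj, ← hfadj, dbl_adj, dbl_adj, he]
    constructor
    · rintro (h | ⟨h, _⟩)
      · exact Or.inl h
      · exact absurd h.symm h4
    · rintro (h | ⟨h, _⟩)
      · exact Or.inl h
      · exact absurd h.symm h4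
  set X₀ : Finset (α × g.carrier) :=
    (Finset.univ.filter (fun c : α => c ≠ s)).image (fun c => (f c).1) with hX₀
  have hmem : ∀ c, c ≠ s → (f c).1 ∈ X₀ := fun c hc =>
    Finset.mem_image.2 ⟨c, by simp [hc], rfl⟩
  have hcard : X₀.card ≤ Fintype.card α :=
    Finset.card_image_le.trans (Finset.card_filter_le _ _)
  have hx : (f s).1 ∉ X₀ := by
    intro h
    obtain ⟨c, hc, he⟩ := Finset.mem_image.1 h
    exact h1 c (by simpa using hc) he
  obtain ⟨v, hv1, hv2, hv3⟩ := rprod_priv H g (f s).1 X₀ hcard hx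
  have hv1 : G₀.Adj (f s).1 v := hv1
  have hts : t ≠ s := hne.symm
  have hext : IsExt H (dbl G₀) s t f (v, false) ((f t).1, !(f t).2) := by
    refine ⟨?_, ?_, ?_, ?_, ?_, ?_⟩
    · intro h
      have h5 : v = (f t).1 := (Prod.ext_iff.1 h).1
      exact hv2 (h5 ▸ hmem t hts)
    · rintro ⟨c, hc⟩
      have h5 : (f c).1 = v := (Prod.ext_iff.1 hc).1
      by_cases hcs : c = s
      · subst hcs
        rw [h5] at hv1
        exact G₀.loopless.irrefl _ hv1
      · exact hv2 (h5 ▸ hmem c hcs)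
    · rintro ⟨c, hc⟩
      apply ht c
      rw [← hfadj, dbl_adj, hc]
      exact Or.inr ⟨rfl, by simp⟩
    · intro c
      rw [dbl_adj]
      constructor
      · rintro (h | ⟨h, _⟩)
        · by_contra hcs
          exact hv3 _ (hmem c hcs) h
        · by_contra hcs
          exact hv2 (show v ∈ X₀ by rw [show v = (f c).1 from h]; exact hmem c hcs)
      · rintro rfl
        exact Or.inl hv1.symm
    · intro c
      rw [dbl_adj]
      constructor
      · rintro (h | ⟨h, h'⟩)
        · exact absurd ((hfadj t c).1 (Or.inl h)) (ht c)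
        · refine (hinj (Prod.ext h ?_)).symm
          revert h'
          dsimp only
          cases (f t).2 <;> cases (f c).2 <;> simp
      · rintro rfl
        exact Or.inr ⟨rfl, by simp⟩
    · rw [dbl_adj]
      rintro (h | ⟨h, _⟩)
      · exact hv3 _ (hmem t hts) h
      · exact hv2 (show v ∈ X₀ by rw [show v = (f t).1 from h]; exact hmem t hts)
  refine not_closable_of_enclosed hext.ne.symm (fun h => hext.nadj h.symm) ?_
    (hf _ _ hext).symm
  rintro w hw
  rcases hw with h | ⟨h, h'⟩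
  · exact Or.inr ⟨f t, ⟨t, rfl⟩, Or.inl h⟩
  · refine Or.inl ⟨t, ?_⟩
    refine Prod.ext h ?_
    revert h'
    dsimp only
    cases (f t).2 <;> cases w.2 <;> simp

end Pool.Agent.TWR
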