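import Pool.Agent.TWR.RProd
import Pool.Agent.TWR.Step
import Pool.Agent.TWR.Paths

/-!
# TWR/CaseLeaf: `s` is adjacent to a leaf and `t` has no false twin

`G₀ = rprod H g` for a gadget `g : Gadget (Fintype.card α) 0`; only `rprod_embeds` and `rprod_priv` are
used. `G` on `V₀ × Fin (Fintype.card α + 1)`: `(x, i)` and `(y, j)` are adjacent iff `G₀.Adj x y`. `G` contains
`H`. Let `f : H ↪g G`, `f u = (x, i)`; choose `i'` with `(x, i')` not in the range of `f`, `s' = (x, i')`: it has the
same neighbours as `f u`, so it is adjacent to `f c` iff `c = s`. `f t = (y, j)`; for `c ≠ t`, `(f c).1 ≠ y`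
(otherwise `c` is a false twin of `t`). Let `v` be a private neighbour of `y` in `G₀` with respect to
`{(f c).1 | c ≠ t}` and `t' = (v, 0)`. As `u ≠ t` (`hst`), `x` is in this set, so `v ≠ x` and `v` is not adjacent to
`x`. `(s', t')` is an extension, not closable by `not_closable_of_enclosed`: the neighbours of `s'` are
neighbours of `f u`.
-/

namespace Pool.Agent.TWR

variable {α : Type}

theorem case_leaf [Fintype α] (H : SimpleGraph α) (s t u : α) (hst : ¬ H.Reachable s t)
    (hu : H.Adj s u) (hleaf : ∀ w, H.Adj u w → w = s)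
    (ht : ∀ w, w ≠ t → ∃ z, ¬ (H.Adj t z ↔ H.Adj w z)) : ¬ Inherent H s t := by
  classical
  intro hinh
  obtain ⟨g⟩ := exists_gadget (Fintype.card α) 0
  haveI := g.fin
  obtain ⟨e⟩ := rprod_embeds H g
  let G : SimpleGraph ((α × g.carrier) × Fin (Fintype.card α + 1)) :=
    SimpleGraph.comap Prod.fst (rprod H g)
  have hG : ∀ p q, G.Adj p q ↔ (rprod H g).Adj p.1 q.1 := fun p q => Iff.rfl
  have hemb : Nonempty (H ↪g G) := by
    refine ⟨⟨⟨fun a => (e a, 0), ?_⟩, ?_⟩⟩
    · intro a b hab
      exact e.injective (congrArg Prod.fst hab)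
    · intro a b
      exact e.map_adj_iff
  obtain ⟨f, hf⟩ := hinh _ G hemb
  have hadj : ∀ a b, (rprod H g).Adj (f a).1 (f b).1 ↔ H.Adj a b := by
    intro a b
    rw [← hG]
    exact f.map_adj_iff
  have hut : u ≠ t := by
    rintro rfl
    exact hst hu.reachable
  -- choose the second coordinate
  obtain ⟨i', hi'⟩ : ∃ i' : Fin (Fintype.card α + 1), ∀ a, (f a).2 ≠ i' := by
    by_contra hcon
    push Not at hcon
    have hsurj : Function.Surjective (fun a => (f a).2) := hcon
    have := Fintype.card_le_of_surjective _ hsurj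
    simp at this
  -- private neighbour
  set S : Finset (α × g.carrier) := (Finset.univ.filter (fun c => c ≠ t)).image (fun c => (f c).1)
    with hS
  have hmem : ∀ c, c ≠ t → (f c).1 ∈ S := by
    intro c hc
    rw [hS]
    exact Finset.mem_image_of_mem _ (by simp [hc])
  have hcard : S.card ≤ Fintype.card α := by
    refine Finset.card_image_le.trans ?_
    exact Finset.card_le_univ _
  have hyS : (f t).1 ∉ S := by
    intro hmemS
    rw [hS, Finset.mem_image] at hmemS
    obtain ⟨c, hc, hcy⟩ := hmemS
    have hct : c ≠ t := by simpa using hc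
    obtain ⟨z, hz⟩ := ht c hct
    apply hz
    rw [← hadj t z, ← hadj c z, hcy]
  obtain ⟨v, hv1, hv2, hv3⟩ := rprod_priv H g (f t).1 S hcard hyS
  have hext : IsExt H G s t f ((f u).1, i') (v, 0) := by
    refine ⟨?_, ?_, ?_, ?_, ?_, ?_⟩
    · intro h
      have h1 : (f u).1 = v := congrArg Prod.fst h
      exact hv2 (h1 ▸ hmem u hut)
    · rintro ⟨a, ha⟩
      exact hi' a (congrArg Prod.snd ha)
    · rintro ⟨a, ha⟩
      have h1 : (f a).1 = v := congrArg Prod.fst ha
      by_cases hat : a = t
      · subst hat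
        rw [h1] at hv1
        exact (rprod H g).loopless.irrefl _ hv1
      · exact hv2 (h1 ▸ hmem a hat)
    · intro a
      rw [hG]
      show (rprod H g).Adj (f u).1 (f a).1 ↔ a = s
      rw [hadj]
      constructor
      · exact hleaf a
      · rintro rfl
        exact hu.symm
    · intro a
      rw [hG]
      show (rprod H g).Adj v (f a).1 ↔ a = t
      constructor
      · intro h
        by_contra hat
        exact hv3 _ (hmem a hat) h
      · rintro rfl
        exact hv1.symm
    · rw [hG]
      intro h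
      exact hv3 _ (hmem u hut) (SimpleGraph.Adj.symm h)
  refine not_closable_of_enclosed hext.ne hext.nadj ?_ (hf _ _ hext)
  intro w hw
  refine Or.inr ⟨f u, ⟨u, rfl⟩, ?_⟩
  rw [hG] at hw ⊢
  exact hw

end Pool.Agent.TWR
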