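import Pool.Agent.TWR.CaseCycle
import Pool.Agent.TWR.CaseDeg
import Pool.Agent.TWR.CaseIso
import Pool.Agent.TWR.CaseLeaf
import Pool.Agent.TWR.CaseForced

/-!
# TWR/Final: necessary conditions for inherence with roots in different components
-/

namespace Pool.Agent.TWR

variable {α : Type}

theorem two_of_ncard [Finite α] {H : SimpleGraph α} {s : α} (h : ¬ (H.neighborSet s).ncard ≤ 1) :
    ∃ u w, u ≠ w ∧ H.Adj s u ∧ H.Adj s w := by
  push Not at h
  obtain ⟨u, w, hu, hw, hne⟩ := (Set.one_lt_ncard_iff (Set.toFinite _)).1 h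
  exact ⟨u, w, hne, hu, hw⟩

theorem iso_case [Finite α] {H : SimpleGraph α} {s t : α} (hst : ¬ H.Reachable s t)
    (h : Inherent H s t) (hc : ∀ v, H.Reachable s v → ∀ p : H.Walk v v, ¬ p.IsCycle)
    (ht : H.neighborSet t = ∅) : ∃ u, H.neighborSet s = {u} ∧ H.neighborSet u = {s} := by
  classical
  haveI := Fintype.ofFinite α
  have hne : s ≠ t := fun e => hst (e ▸ SimpleGraph.Reachable.refl _)
  have ht' : ∀ a, ¬ H.Adj t a := fun a ha => by
    have : a ∈ H.neighborSet t := ha
    rw [ht] at this
    exact this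
  by_contra hcon
  refine case_isolated H s t hne ht' ?_ h
  intro u hu
  by_contra hcon2
  push Not at hcon2
  -- `u` is a true twin of `s`; no third vertex is adjacent to both
  have htri : ∀ w, w ≠ s → w ≠ u → ¬ H.Adj s w := by
    intro w h1 h2 h3
    have h4 : H.Adj u w := (hcon2 w h1 h2).1 h3
    have hp : (SimpleGraph.Walk.cons hu (SimpleGraph.Walk.cons h4
        (SimpleGraph.Walk.cons h3.symm SimpleGraph.Walk.nil))).IsCycle := by
      rw [SimpleGraph.Walk.cons_isCycle_iff]
      refine ⟨?_, ?_⟩
      · rw [SimpleGraph.Walk.cons_isPath_iff, SimpleGraph.Walk.cons_isPath_iff]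
        simp only [SimpleGraph.Walk.isPath_iff_eq_nil, SimpleGraph.Walk.support_nil,
          SimpleGraph.Walk.support_cons, List.mem_cons, List.not_mem_nil, or_false]
        exact ⟨⟨trivial, h1⟩, fun h5 => h5.elim (fun h6 => h2 h6.symm) (fun h6 => hu.ne h6.symm)⟩
      · simp only [SimpleGraph.Walk.edges_cons, SimpleGraph.Walk.edges_nil, List.mem_cons,
          List.not_mem_nil, or_false, Sym2.eq, Sym2.rel_iff', Prod.mk.injEq, Prod.swap_prod_mk]
        have := hu.ne
        have := h3.ne
        have := h4.ne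
        tauto
    exact hc s (SimpleGraph.Reachable.refl _) _ hp
  apply hcon
  refine ⟨u, ?_, ?_⟩
  · ext w
    simp only [SimpleGraph.mem_neighborSet, Set.mem_singleton_iff]
    constructor
    · intro hw
      by_contra hwu
      exact htri w hw.ne' hwu hw
    · rintro rfl
      exact hu
  · ext w
    simp only [SimpleGraph.mem_neighborSet, Set.mem_singleton_iff]
    constructor
    · intro hw
      by_contra hws
      exact htri w hws hw.ne' ((hcon2 w hws hw.ne').2 hw)
    · rintro rfl
      exact hu.symm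

theorem leaf_case [Finite α] {H : SimpleGraph α} {s t : α} (hst : ¬ H.Reachable s t)
    (h : Inherent H s t) (hu : ∃ u, H.neighborSet u = {s}) :
    ∃ w, w ≠ t ∧ H.neighborSet w = H.neighborSet t := by
  classical
  haveI := Fintype.ofFinite α
  obtain ⟨u, hu⟩ := hu
  have hus : H.Adj u s := by
    have : s ∈ H.neighborSet u := by rw [hu]; rfl
    exact this
  by_contra hcon
  push Not at hcon
  refine case_leaf H s t u hst hus.symm ?_ ?_ h
  · intro w hw
    have : w ∈ H.neighborSet u := hw
    rw [hu] at this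
    exact this
  · intro w hw
    by_contra hcon2
    push Not at hcon2
    apply hcon w hw
    ext z
    exact (hcon2 z).symm

/-- Necessary conditions for the inherence of `(H, s, t)` when `s` and `t` lie in different components. -/
theorem necessary [Finite α] (H : SimpleGraph α) (s t : α) (hst : ¬ H.Reachable s t)
    (h : Inherent H s t) :
    (∀ v, H.Reachable s v ∨ H.Reachable t v → ∀ p : H.Walk v v, ¬ p.IsCycle) ∧
    ((H.neighborSet s).ncard ≤ 1 ∨ (H.neighborSet t).ncard ≤ 1) ∧
    (H.neighborSet t = ∅ → ∃ u, H.neighborSet s = {u} ∧ H.neighborSet u = {s}) ∧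
    (H.neighborSet s = ∅ → ∃ u, H.neighborSet t = {u} ∧ H.neighborSet u = {t}) ∧
    ((∃ u, H.neighborSet u = {s}) → ∃ w, w ≠ t ∧ H.neighborSet w = H.neighborSet t) ∧
    ((∃ u, H.neighborSet u = {t}) → ∃ w, w ≠ s ∧ H.neighborSet w = H.neighborSet s) ∧
    ¬ (Forced H s ∧ Forced H t) := by
  classical
  haveI := Fintype.ofFinite α
  have hts : ¬ H.Reachable t s := fun h' => hst h'.symm
  have hne : s ≠ t := fun e => hst (e ▸ SimpleGraph.Reachable.refl _)
  have hc1 : ∀ v, H.Reachable s v → ∀ p : H.Walk v v, ¬ p.IsCycle := fun v hv p hp =>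
    case_cycle H s t hst v hv p hp h
  have hc2 : ∀ v, H.Reachable t v → ∀ p : H.Walk v v, ¬ p.IsCycle := fun v hv p hp =>
    case_cycle H t s hts v hv p hp h.symm
  refine ⟨fun v hv => hv.elim (hc1 v) (hc2 v), ?_, iso_case hst h hc1, iso_case hts h.symm hc2,
    leaf_case hst h, leaf_case hts h.symm, fun hf => case_forced H s t hst hf.1 hf.2 h⟩
  by_contra hcon
  push Not at hcon
  exact case_deg H s t hne (two_of_ncard (by push Not; exact hcon.1))
    (two_of_ncard (by push Not; exact hcon.2)) h

end Pool.Agent.TWR
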