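import Pool.Agent.TWR.RProd
import Pool.Agent.TWR.Step
import Pool.Agent.TWR.Paths

/-!
# TWR/CaseCycle: the component of `s` contains a cycle

`core_of_cycle`: `Z` = the support of the cycle; every vertex of it has two neighbours in the subgraph of
the cycle (`SimpleGraph.Walk.IsCycle.ncard_neighborSet_toSubgraph_eq_two`).

`case_cycle`: `K = d = Fintype.card α`, `g` a gadget, `G = rprod H g`, `f : H ↪g G` any copy.
`rprod_core` for the image of `Z` gives `z ∈ Z` with `f z = (a, g.r)`; a path from `z` to `s` in `H` has length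
`< Fintype.card α`, so `g.lev (f s).2 < d` by `rprod_level`. Let `X` be the set of the `f c`, `c ≠ s` (at
most `K` elements), `B` from `rprod_branch` for `f s` and `X`, `s' ∈ B` adjacent to `f s`. Let `t'` be a
private neighbour of `f t` with respect to the `f c`, `c ≠ t` (`rprod_priv`). Then `t' ∉ B`: otherwise the
neighbour `f t ∉ B` of `t'` is `f s`. `(s', t')` is an extension (if `s'` is adjacent to `f c`, then
`f c ∉ B` is `f s`; if `s'` is adjacent to `t' ∉ B`, then `t' = f s`, excluded) and it is not closable by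
`not_closable_of_cut`.
-/

namespace Pool.Agent.TWR

variable {α : Type}

theorem core_of_cycle [Fintype α] {H : SimpleGraph α} {v : α} (p : H.Walk v v) (hp : p.IsCycle) :
    ∃ Z : Finset α, v ∈ Z ∧ (∀ z ∈ Z, H.Reachable v z) ∧
      ∀ z ∈ Z, ∃ u ∈ Z, ∃ w ∈ Z, u ≠ w ∧ H.Adj z u ∧ H.Adj z w := by
  classical
  refine ⟨p.support.toFinset, by simp, ?_, ?_⟩
  · intro z hz
    rw [List.mem_toFinset] at hz
    exact ⟨p.takeUntil z hz⟩
  · intro z hz
    rw [List.mem_toFinset] at hz
    have h2 := hp.ncard_neighborSet_toSubgraph_eq_two hz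
    obtain ⟨u, w, huw, hset⟩ := Set.ncard_eq_two.1 h2
    have hu : p.toSubgraph.Adj z u := by
      have : u ∈ p.toSubgraph.neighborSet z := by rw [hset]; simp
      exact this
    have hw : p.toSubgraph.Adj z w := by
      have : w ∈ p.toSubgraph.neighborSet z := by rw [hset]; simp
      exact this
    refine ⟨u, ?_, w, ?_, huw, hu.adj_sub, hw.adj_sub⟩
    · rw [List.mem_toFinset, ← SimpleGraph.Walk.mem_verts_toSubgraph]
      exact p.toSubgraph.edge_vert hu.symm
    · rw [List.mem_toFinset, ← SimpleGraph.Walk.mem_verts_toSubgraph]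
      exact p.toSubgraph.edge_vert hw.symm

theorem case_cycle [Fintype α] (H : SimpleGraph α) (s t : α) (hst : ¬ H.Reachable s t) (v : α)
    (hv : H.Reachable s v) (p : H.Walk v v) (hp : p.IsCycle) : ¬ Inherent H s t := by
  classical
  intro hI
  have hne : s ≠ t := by
    rintro rfl
    exact hst (SimpleGraph.Reachable.refl _)
  obtain ⟨g⟩ := exists_gadget (Fintype.card α) (Fintype.card α)
  have := g.fin
  obtain ⟨f, hf⟩ := hI (α × g.carrier) (rprod H g) (rprod_embeds H g)
  obtain ⟨Z, hvZ, hZr, hZ⟩ := core_of_cycle p hp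
  obtain ⟨a, ha⟩ := rprod_core H g (Z.image f)
    (Finset.card_image_le.trans (Finset.card_le_univ Z)) ⟨f v, Finset.mem_image_of_mem _ hvZ⟩
    (by
      intro y hy
      obtain ⟨z, hz, rfl⟩ := Finset.mem_image.1 hy
      obtain ⟨u, hu, w, hw, huw, h1, h2⟩ := hZ z hz
      exact ⟨f u, Finset.mem_image_of_mem _ hu, f w, Finset.mem_image_of_mem _ hw,
        fun h => huw (f.injective h), f.map_adj_iff.2 h1, f.map_adj_iff.2 h2⟩)
  obtain ⟨z, hz, hza⟩ := Finset.mem_image.1 ha
  have hzs : H.Reachable z s := ((hv.trans (hZr z hz)).symm)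
  have hlev : g.lev (f s).2 < Fintype.card α := by
    obtain ⟨q, hq⟩ := hzs.exists_isPath
    have h1 := rprod_level f q
    have h2 := hq.length_lt
    rw [hza] at h1
    have h3 : g.lev (a, g.r).2 = 0 := g.lev_r
    omega
  have hcard : ∀ c : α, ((Finset.univ.erase c).image f).card ≤ Fintype.card α := fun c =>
    Finset.card_image_le.trans (Finset.card_le_univ _)
  have hmem : ∀ c e : α, e ≠ c → f e ∈ (Finset.univ.erase c).image f := fun c e he =>
    Finset.mem_image_of_mem _ (Finset.mem_erase.2 ⟨he, Finset.mem_univ _⟩)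
  obtain ⟨B, hsB, hXB, ⟨s', hs'B, hs'⟩, hB⟩ :=
    rprod_branch H g (f s) hlev ((Finset.univ.erase s).image f) (hcard s)
  obtain ⟨t', ht1, ht2, ht3⟩ := rprod_priv H g (f t) ((Finset.univ.erase t).image f) (hcard t)
    (by
      intro h
      obtain ⟨c, hc, hc'⟩ := Finset.mem_image.1 h
      exact (Finset.mem_erase.1 hc).1 (f.injective hc'))
  have hrB : ∀ c, f c ∉ B := by
    intro c
    by_cases hc : c = s
    · rw [hc]
      exact hsB
    · exact hXB _ (hmem s c hc)
  have ht'B : t' ∉ B := by
    intro h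
    have h1 := hB t' h (f t) (hrB t) ht1.symm
    exact hne (f.injective h1).symm
  have ht'r : t' ∉ Set.range f := by
    rintro ⟨c, rfl⟩
    by_cases hc : c = t
    · rw [hc] at ht1
      exact (rprod H g).loopless.irrefl _ ht1
    · exact ht2 (hmem t c hc)
  have hext : IsExt H (rprod H g) s t f s' t' := by
    refine ⟨fun h => ht'B (h ▸ hs'B), ?_, ht'r, ?_, ?_, ?_⟩
    · rintro ⟨c, rfl⟩
      exact hrB c hs'B
    · intro c
      constructor
      · intro h
        exact f.injective (hB s' hs'B (f c) (hrB c) h)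
      · rintro rfl
        exact hs'.symm
    · intro c
      constructor
      · intro h
        by_contra hc
        exact ht3 _ (hmem t c hc) h
      · rintro rfl
        exact ht1.symm
    · intro h
      have h1 := hB s' hs'B t' ht'B h
      exact ht'r ⟨s, h1.symm⟩
  refine not_closable_of_cut hs'B ht'B ht'r ?_ (hf s' t' hext)
  intro b hb y hy hby
  exact ⟨s, (hB b hb y hy hby).symm⟩

end Pool.Agent.TWR
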