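import Pool.Agent.TWR.Defs

/-!
# TWR/Thin: a vertex of degree at most one different from a given vertex

Strong induction on `Y.card`. Suppose every `y ∈ Y`, `y ≠ r` has two distinct neighbours in `Y`. By `h`
for `Y` some `y₀ ∈ Y` has at most one neighbour in `Y`, so `y₀ = r ∈ Y`. If `r` has no neighbour in `Y`, then
`Y.erase r` (nonempty) contradicts `h`. Otherwise let `r₁` be its neighbour in `Y`. If
`Y.erase r = {r₁}`, then `r₁ ≠ r` has two distinct neighbours in `Y = {r, r₁}`, impossible (no loops).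
Otherwise the induction hypothesis for `Y.erase r` and `r₁` gives `y ≠ r₁`, `y ∈ Y.erase r` with at most
one neighbour in `Y.erase r`; `y` is not adjacent to `r` (the neighbours of `r` in `Y` are all equal to
`r₁`), a contradiction.
-/

namespace Pool.Agent.TWR

theorem thin_of_core {V : Type} (G : SimpleGraph V) (K : ℕ)
    (h : ∀ Y : Finset V, Y.card ≤ K → Y.Nonempty →
      ∃ y ∈ Y, ∀ z ∈ Y, ∀ w ∈ Y, G.Adj y z → G.Adj y w → z = w) (r : V) :
    ∀ Y : Finset V, Y.card ≤ K → (∃ y ∈ Y, y ≠ r) →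
      ∃ y ∈ Y, y ≠ r ∧ ∀ z ∈ Y, ∀ w ∈ Y, G.Adj y z → G.Adj y w → z = w := by
  classical
  have key : ∀ n : ℕ, ∀ r : V, ∀ Y : Finset V, Y.card = n → Y.card ≤ K → (∃ y ∈ Y, y ≠ r) →
      ∃ y ∈ Y, y ≠ r ∧ ∀ z ∈ Y, ∀ w ∈ Y, G.Adj y z → G.Adj y w → z = w := by
    intro n
    induction n using Nat.strong_induction_on with
    | _ n ih =>
      rintro r Y hn hK ⟨y1, hy1, hy1r⟩
      by_contra hcon
      have hcon' : ∀ y ∈ Y, y ≠ r → ∃ z ∈ Y, ∃ w ∈ Y, G.Adj y z ∧ G.Adj y w ∧ z ≠ w := by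
        intro y hy hyr
        by_contra hc
        apply hcon
        refine ⟨y, hy, hyr, fun z hz w hw a b => ?_⟩
        by_contra hzw
        exact hc ⟨z, hz, w, hw, a, b, hzw⟩
      obtain ⟨y0, hy0, h0⟩ := h Y hK ⟨y1, hy1⟩
      have hy0r : y0 = r := by
        by_contra hne
        obtain ⟨z, hz, w, hw, a, b, c⟩ := hcon' y0 hy0 hne
        exact c (h0 z hz w hw a b)
      subst hy0r
      have hlt : (Y.erase y0).card < n := by
        rw [← hn]
        exact Finset.card_erase_lt_of_mem hy0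
      have hle : (Y.erase y0).card ≤ K := by omega
      by_cases hr : ∃ r1 ∈ Y, G.Adj y0 r1
      · obtain ⟨r1, hr1, had⟩ := hr
        by_cases h1 : ∃ y ∈ Y.erase y0, y ≠ r1
        · obtain ⟨y, hy, hyr1, hy'⟩ := ih (Y.erase y0).card hlt r1 (Y.erase y0) rfl hle h1
          rw [Finset.mem_erase] at hy
          obtain ⟨z, hz, w, hw, a, b, c⟩ := hcon' y hy.2 hy.1
          have hno : ∀ z ∈ Y, G.Adj y z → z ≠ y0 := by
            intro z hz a hz0
            subst hz0
            exact hyr1 (h0 y hy.2 r1 hr1 a.symm had)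
          exact c (hy' z (Finset.mem_erase.mpr ⟨hno z hz a, hz⟩) w
            (Finset.mem_erase.mpr ⟨hno w hw b, hw⟩) a b)
        · obtain ⟨z, hz, w, hw, a, b, c⟩ := hcon' r1 hr1 had.ne'
          have hall : ∀ z ∈ Y, G.Adj r1 z → z = y0 := by
            intro z hz a
            by_contra hz0
            apply h1
            exact ⟨z, Finset.mem_erase.mpr ⟨hz0, hz⟩, a.ne'⟩
          exact c ((hall z hz a).trans (hall w hw b).symm)
      · obtain ⟨y, hy, hy'⟩ := h (Y.erase y0) hle ⟨y1, Finset.mem_erase.mpr ⟨hy1r, hy1⟩⟩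
        rw [Finset.mem_erase] at hy
        obtain ⟨z, hz, w, hw, a, b, c⟩ := hcon' y hy.2 hy.1
        have hno : ∀ z ∈ Y, G.Adj y z → z ≠ y0 := by
          intro z hz a hz0
          subst hz0
          exact hr ⟨y, hy.2, a.symm⟩
        exact c (hy' z (Finset.mem_erase.mpr ⟨hno z hz a, hz⟩) w
          (Finset.mem_erase.mpr ⟨hno w hw b, hw⟩) a b)
  intro Y hY hne
  exact key Y.card r Y rfl hY hne

end Pool.Agent.TWR
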