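import Pool.Agent.TWR.Words
import Pool.Agent.TWR.Thin

/-!
# TWR/Cayley: the gadget of depth 0, a Cayley graph of large girth

`cay_core`: otherwise every `y ∈ Y` has two distinct neighbours in `Y`, so there is a walk `y₀, y₁, …` in
`Y`, `y_{k+1} ∈ Y` a neighbour of `y_k` different from `y_{k-1}` (build it by recursion as a sequence of
pairs `(previous, current)`), `y_{k+1} = σ (a k) * y_k`. As `y_{k+1} ≠ y_{k-1}` and `σ a * σ a = 1`, `a k ≠ a (k-1)`.
By the pigeonhole principle `y_i = y_j` with `i < j ≤ Y.card ≤ K`; the word `a (j-1) … a i` has length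
`j - i ≤ K ≤ r` and product `y_j * y_i⁻¹ = 1`, a contradiction.

`cay_priv`: candidates `σ a * v`, `a : Fin M`, pairwise distinct (a relation `σ a * σ b = 1`, `a ≠ b` is
excluded by `r ≥ 4`). Bad are at most one `a` with `σ a * v = r₀`; for every `x ∈ X` at most one `a` with
`σ a * v = x` and at most one `a` such that `x` is adjacent to `σ a * v`: if `x = σ b * σ a * v = σ b' * σ a' * v`, then
`b ≠ a`, `b' ≠ a'` (`x ≠ v`), and `σ a * σ b * σ b' * σ a' = 1`; if `b = b'` then `a = a'` by the above, otherwise the word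
`[a, b, b', a']` is a chain of length 4, a contradiction. So at most `1 + 2 K < M` are bad.
(All neighbours of `v` are `≠ v`, by the case `w = [a]` of `hnb`.)

`base_gadget`: `M = 2 K + 2`, `r = max K 4`, all levels `0`; `branch` is void (`d = 0`); `thin` by
`thin_of_core` and `cay_core`.
-/

namespace Pool.Agent.TWR

/-- Cayley graph (left multiplication by the `σ a`). -/
def cay {X : Type} {M : ℕ} (σ : Fin M → Equiv.Perm X) (hσ : ∀ a, σ a * σ a = 1) :
    SimpleGraph (Equiv.Perm X) where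
  Adj g h := g ≠ h ∧ ∃ a, h = σ a * g
  symm := ⟨fun g h hh => by
    obtain ⟨h1, a, h2⟩ := hh
    exact ⟨h1.symm, a, by rw [h2, ← mul_assoc, hσ, one_mul]⟩⟩
  loopless := ⟨fun g hh => hh.1 rfl⟩

/-- letters `a (i + n - 1), ..., a i` -/
private def cayWord {M : ℕ} (a : ℕ → Fin M) (i : ℕ) : ℕ → List (Fin M)
  | 0 => []
  | n + 1 => a (i + n) :: cayWord a i n

private theorem cayWord_length {M : ℕ} (a : ℕ → Fin M) (i n : ℕ) : (cayWord a i n).length = n := by
  induction n with
  | zero => rfl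
  | succ n ih => simp [cayWord, ih]

private theorem cayWord_chain {M : ℕ} (a : ℕ → Fin M) (ha : ∀ k, a (k + 1) ≠ a k) (i n : ℕ) :
    (cayWord a i n).IsChain (· ≠ ·) := by
  induction n with
  | zero => exact List.IsChain.nil
  | succ n ih =>
    cases n with
    | zero => exact List.IsChain.singleton _
    | succ n =>
      change (a (i + (n + 1)) :: a (i + n) :: cayWord a i n).IsChain (· ≠ ·)
      rw [List.isChain_cons_cons]
      exact ⟨ha (i + n), ih⟩

private theorem cayWord_prod {X : Type} {M : ℕ} (σ : Fin M → Equiv.Perm X) (a : ℕ → Fin M)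
    (y : ℕ → Equiv.Perm X) (hy : ∀ k, y (k + 1) = σ (a k) * y k) (i n : ℕ) :
    ((cayWord a i n).map σ).prod * y i = y (i + n) := by
  induction n with
  | zero => simp [cayWord]
  | succ n ih =>
    change ((a (i + n) :: cayWord a i n).map σ).prod * y i = y (i + n + 1)
    rw [List.map_cons, List.prod_cons, mul_assoc, ih, hy]

private theorem cay_inj {X : Type} {M r : ℕ} (σ : Fin M → Equiv.Perm X) (hσ : ∀ a, σ a * σ a = 1)
    (hnb : ∀ w : List (Fin M), w ≠ [] → w.length ≤ r → w.IsChain (· ≠ ·) → (w.map σ).prod ≠ 1)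
    (hr : 4 ≤ r) {a b : Fin M} (h : σ a = σ b) : a = b := by
  by_contra hab
  apply hnb [a, b] (by simp) (by simp; omega) (by simpa using hab)
  simp [h, hσ]

theorem cay_core {X : Type} {M r K : ℕ} (σ : Fin M → Equiv.Perm X) (hσ : ∀ a, σ a * σ a = 1)
    (hnb : ∀ w : List (Fin M), w ≠ [] → w.length ≤ r → w.IsChain (· ≠ ·) → (w.map σ).prod ≠ 1)
    (hK : K ≤ r) (Y : Finset (Equiv.Perm X)) (hY : Y.card ≤ K) (hne : Y.Nonempty) :
    ∃ y ∈ Y, ∀ z ∈ Y, ∀ w ∈ Y, (cay σ hσ).Adj y z → (cay σ hσ).Adj y w → z = w := by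
  classical
  by_contra hcon
  push Not at hcon
  have step : ∀ (a : Fin M) (y : Equiv.Perm X), y ∈ Y → ∃ b, b ≠ a ∧ σ b * y ∈ Y := by
    intro a y hy
    obtain ⟨z, hz, w, hw, ⟨_, b1, h1⟩, ⟨_, b2, h2⟩, hzw⟩ := hcon y hy
    by_cases hb : b1 = a
    · refine ⟨b2, ?_, by rw [← h2]; exact hw⟩
      rintro rfl
      apply hzw
      rw [h1, h2, hb]
    · exact ⟨b1, hb, by rw [← h1]; exact hz⟩
  obtain ⟨y₀, hy₀⟩ := hne
  obtain ⟨a₀, -⟩ : ∃ a : Fin M, True := by
    obtain ⟨z, hz, w, hw, ⟨_, b1, h1⟩, _, _⟩ := hcon y₀ hy₀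
    exact ⟨b1, trivial⟩
  choose nb hnb1 hnb2 using step
  let f : ℕ → {p : Fin M × Equiv.Perm X // p.2 ∈ Y} := fun n =>
    Nat.rec ⟨(a₀, y₀), hy₀⟩ (fun _ p => ⟨(nb p.1.1 p.1.2 p.2, σ (nb p.1.1 p.1.2 p.2) * p.1.2),
      hnb2 p.1.1 p.1.2 p.2⟩) n
  have hf : ∀ n, f (n + 1) = ⟨(nb (f n).1.1 (f n).1.2 (f n).2,
      σ (nb (f n).1.1 (f n).1.2 (f n).2) * (f n).1.2), hnb2 (f n).1.1 (f n).1.2 (f n).2⟩ :=
    fun n => rfl
  set a : ℕ → Fin M := fun k => (f (k + 1)).1.1 with ha
  set y : ℕ → Equiv.Perm X := fun k => (f k).1.2 with hyd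
  have hy : ∀ k, y (k + 1) = σ (a k) * y k := by
    intro k
    simp only [ha, hyd]
    rw [hf k]
  have hne' : ∀ k, a (k + 1) ≠ a k := by
    intro k
    have h1 := hnb1 (f (k + 1)).1.1 (f (k + 1)).1.2 (f (k + 1)).2
    have h2 : a (k + 1) = nb (f (k + 1)).1.1 (f (k + 1)).1.2 (f (k + 1)).2 := by
      change (f (k + 1 + 1)).1.1 = _
      rw [hf (k + 1)]
    rw [h2]
    exact h1
  obtain ⟨i, hi, j, hj, hij, hyij⟩ := Finset.exists_ne_map_eq_of_card_lt_of_maps_to
    (s := Finset.range (Y.card + 1)) (t := Y) (by simp) (f := y) (fun k _ => (f k).2)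
  rw [Finset.mem_range] at hi hj
  have key : ∀ i j : ℕ, i < j → j < Y.card + 1 → y i = y j → False := by
    intro i j hij hj hyij
    have h1 := cayWord_prod σ a y hy i (j - i)
    rw [show i + (j - i) = j by omega, ← hyij] at h1
    have h2 : ((cayWord a i (j - i)).map σ).prod = 1 := by
      have := congrArg (· * (y i)⁻¹) h1
      simpa using this
    refine hnb (cayWord a i (j - i)) ?_ ?_ (cayWord_chain a hne' i _) h2
    · intro h
      have := cayWord_length a i (j - i)
      rw [h] at this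
      simp at this
      omega
    · rw [cayWord_length]
      omega
  rcases lt_or_gt_of_ne hij with h | h
  · exact key i j h hj hyij
  · exact key j i h hi hyij.symm

theorem cay_priv {X : Type} {M r K : ℕ} (σ : Fin M → Equiv.Perm X) (hσ : ∀ a, σ a * σ a = 1)
    (hnb : ∀ w : List (Fin M), w ≠ [] → w.length ≤ r → w.IsChain (· ≠ ·) → (w.map σ).prod ≠ 1)
    (hr : 4 ≤ r) (hM : 2 * K + 2 ≤ M) (r₀ v : Equiv.Perm X) (Y : Finset (Equiv.Perm X))
    (hY : Y.card ≤ K) (hv : v ∉ Y) :
    ∃ v', (cay σ hσ).Adj v v' ∧ v' ≠ r₀ ∧ v' ∉ Y ∧ ∀ x ∈ Y, ¬ (cay σ hσ).Adj v' x := by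
  classical
  have hinj : ∀ {a b : Fin M}, σ a * v = σ b * v → a = b := fun h =>
    cay_inj σ hσ hnb hr (mul_right_cancel h)
  set B0 : Finset (Fin M) := Finset.univ.filter fun a => σ a * v = r₀ with hB0
  set B1 : Equiv.Perm X → Finset (Fin M) := fun x => Finset.univ.filter fun a => σ a * v = x
    with hB1
  set B2 : Equiv.Perm X → Finset (Fin M) := fun x => Finset.univ.filter fun a =>
    (cay σ hσ).Adj (σ a * v) x with hB2
  have c0 : B0.card ≤ 1 := by
    rw [Finset.card_le_one]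
    intro a ha b hb
    rw [hB0, Finset.mem_filter] at ha hb
    exact hinj (ha.2.trans hb.2.symm)
  have c1 : ∀ x, (B1 x).card ≤ 1 := by
    intro x
    rw [Finset.card_le_one]
    intro a ha b hb
    rw [hB1, Finset.mem_filter] at ha hb
    exact hinj (ha.2.trans hb.2.symm)
  have c2 : ∀ x ∈ Y, (B2 x).card ≤ 1 := by
    intro x hx
    have hxv : x ≠ v := by
      rintro rfl
      exact hv hx
    rw [Finset.card_le_one]
    intro a ha a' ha'
    rw [hB2, Finset.mem_filter] at ha ha'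
    obtain ⟨_, _, b, hb⟩ := ha
    obtain ⟨_, _, b', hb'⟩ := ha'
    have hba : b ≠ a := by
      rintro rfl
      apply hxv
      rw [hb, ← mul_assoc, hσ, one_mul]
    have hba' : b' ≠ a' := by
      rintro rfl
      apply hxv
      rw [hb', ← mul_assoc, hσ, one_mul]
    have h1 : σ b * σ a = σ b' * σ a' := by
      have := hb.symm.trans hb'
      rw [← mul_assoc, ← mul_assoc] at this
      exact mul_right_cancel this
    by_cases hbb : b' = b
    · subst hbb
      exact cay_inj σ hσ hnb hr (mul_left_cancel h1)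
    · exfalso
      apply hnb [a', b', b, a] (by simp) (by simp; omega)
      · simp only [List.isChain_cons_cons, List.isChain_singleton, and_true]
        exact ⟨fun h => hba' h.symm, hbb, hba⟩
      · simp only [List.map_cons, List.map_nil, List.prod_cons, List.prod_nil, mul_one]
        rw [h1, ← mul_assoc (σ b'), hσ, one_mul, hσ]
  have hcard : (B0 ∪ Y.biUnion B1 ∪ Y.biUnion B2).card < M := by
    have h1 : (Y.biUnion B1).card ≤ Y.card := by
      calc (Y.biUnion B1).card ≤ ∑ x ∈ Y, (B1 x).card := Finset.card_biUnion_le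
        _ ≤ ∑ _x ∈ Y, 1 := Finset.sum_le_sum fun x _ => c1 x
        _ = Y.card := by simp
    have h2 : (Y.biUnion B2).card ≤ Y.card := by
      calc (Y.biUnion B2).card ≤ ∑ x ∈ Y, (B2 x).card := Finset.card_biUnion_le
        _ ≤ ∑ _x ∈ Y, 1 := Finset.sum_le_sum fun x hx => c2 x hx
        _ = Y.card := by simp
    have h3 := Finset.card_union_le (B0 ∪ Y.biUnion B1) (Y.biUnion B2)
    have h4 := Finset.card_union_le B0 (Y.biUnion B1)
    omega
  obtain ⟨a, ha⟩ : ∃ a : Fin M, a ∉ B0 ∪ Y.biUnion B1 ∪ Y.biUnion B2 := by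
    by_contra hall
    push Not at hall
    have : (Finset.univ : Finset (Fin M)) ⊆ B0 ∪ Y.biUnion B1 ∪ Y.biUnion B2 := fun a _ => hall a
    have := Finset.card_le_card this
    rw [Finset.card_univ, Fintype.card_fin] at this
    omega
  rw [Finset.mem_union, Finset.mem_union, Finset.mem_biUnion, Finset.mem_biUnion] at ha
  push Not at ha
  obtain ⟨⟨h0, h1⟩, h2⟩ := ha
  refine ⟨σ a * v, ⟨?_, a, rfl⟩, ?_, ?_, ?_⟩
  · intro h
    apply hnb [a] (by simp) (by simp; omega) (by simp)
    simp only [List.map_cons, List.map_nil, List.prod_cons, List.prod_nil, mul_one]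
    have := h.symm
    rwa [mul_eq_right] at this
  · intro h
    apply h0
    rw [hB0, Finset.mem_filter]
    exact ⟨Finset.mem_univ _, h⟩
  · intro h
    apply h1 _ h
    rw [hB1, Finset.mem_filter]
    exact ⟨Finset.mem_univ _, rfl⟩
  · intro x hx h
    apply h2 x hx
    rw [hB2, Finset.mem_filter]
    exact ⟨Finset.mem_univ _, h⟩

theorem base_gadget (K : ℕ) : Nonempty (Gadget K 0) := by
  obtain ⟨X, hX, σ, hσ, hnb⟩ := exists_involutions (2 * K + 2) (max K 4)
  exact ⟨{
    carrier := Equiv.Perm X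
    fin := inferInstance
    R := cay σ hσ
    r := 1
    lev := fun _ => 0
    lev_r := rfl
    lev_adj := fun _ _ _ => Nat.zero_le _
    priv := fun v Y hY hv => cay_priv σ hσ hnb (le_max_right _ _) le_rfl 1 v Y hY hv
    branch := fun v Y _ h => absurd h (Nat.not_lt_zero _)
    thin := thin_of_core (cay σ hσ) K
      (fun Y hY hne => cay_core σ hσ hnb (le_max_left _ _) Y hY hne) 1 }⟩

end Pool.Agent.TWR
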