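import Pool.Agent.TWR.Defs

/-!
# TWR/RProd: the rooted product

* `rprod_embeds`: `a ↦ (a, g.r)`.
* `rprod_priv`: `v = (a, x)`; apply `g.priv` to `x` and `{y | (a, y) ∈ X}`; `v' = (a, x')` with `x' ≠ g.r`.
* `rprod_branch`: `v = (a, x)`; apply `g.branch` to `x` and `{y | (a, y) ∈ X}`; `B = {(a, b) | b ∈ B₀}`;
  `g.r ∉ B₀`, so no edge of `H` leaves `B`.
* `rprod_core`: otherwise take `(a, x) ∈ Y` and `Y_a = {y | (a, y) ∈ Y}`, which does not contain `g.r`;
  `g.thin` gives `y ∈ Y_a` with at most one neighbour in `Y_a`; but `(a, y)` has two distinct neighbours in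
  `Y`, both of the form `(a, z)`.
* `rprod_level`: levels change by at most one along an edge (`g.lev g.r = 0` for the edges of `H`), so by
  induction on the walk.
-/

namespace Pool.Agent.TWR

variable {α : Type} {K d : ℕ}

open Classical in
/-- The part of a finite set lying over `a`. -/
private noncomputable def fib {β : Type} (X : Finset (α × β)) (a : α) : Finset β :=
  (X.filter (fun p => p.1 = a)).image Prod.snd

private theorem mem_fib {β : Type} {X : Finset (α × β)} {a : α} {y : β} :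
    y ∈ fib X a ↔ (a, y) ∈ X := by
  classical
  unfold fib
  rw [Finset.mem_image]
  constructor
  · rintro ⟨p, hp, rfl⟩
    rw [Finset.mem_filter] at hp
    obtain ⟨h1, rfl⟩ := hp
    exact h1
  · intro h
    exact ⟨(a, y), Finset.mem_filter.2 ⟨h, rfl⟩, rfl⟩

private theorem card_fib {β : Type} (X : Finset (α × β)) (a : α) : (fib X a).card ≤ X.card := by
  classical
  unfold fib
  exact (Finset.card_image_le).trans (Finset.card_filter_le _ _)

theorem rprod_embeds (H : SimpleGraph α) (g : Gadget K d) : Nonempty (H ↪g rprod H g) := by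
  refine ⟨⟨⟨fun a => (a, g.r), fun a b h => (Prod.mk.inj h).1⟩, ?_⟩⟩
  intro a b
  change (rprod H g).Adj (a, g.r) (b, g.r) ↔ H.Adj a b
  rw [rprod_adj]
  constructor
  · rintro (⟨_, h⟩ | ⟨_, _, h⟩)
    · exact absurd h (g.R.loopless.irrefl _)
    · exact h
  · intro h
    exact Or.inr ⟨rfl, rfl, h⟩

theorem rprod_priv (H : SimpleGraph α) (g : Gadget K d) : PrivNbr (rprod H g) K := by
  rintro ⟨a, x⟩ X hX hv
  obtain ⟨x', h1, h2, h3, h4⟩ := g.priv x (fib X a) ((card_fib X a).trans hX)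
    (fun h => hv (mem_fib.1 h))
  refine ⟨(a, x'), Or.inl ⟨rfl, h1⟩, fun h => h3 (mem_fib.2 h), ?_⟩
  rintro ⟨b, z⟩ hz hadj
  rcases hadj with ⟨h5, h6⟩ | ⟨h5, _, _⟩
  · change a = b at h5
    subst h5
    exact h4 z (mem_fib.2 hz) h6
  · exact h2 h5

theorem rprod_branch (H : SimpleGraph α) (g : Gadget K d) (v : α × g.carrier)
    (hv : g.lev v.2 < d) (X : Finset (α × g.carrier)) (hX : X.card ≤ K) :
    ∃ B : Set (α × g.carrier), v ∉ B ∧ (∀ x ∈ X, x ∉ B) ∧ (∃ b ∈ B, (rprod H g).Adj v b) ∧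
      ∀ b ∈ B, ∀ y, y ∉ B → (rprod H g).Adj b y → y = v := by
  obtain ⟨a, x⟩ := v
  obtain ⟨B, hr, hxB, hXB, ⟨b, hb, hab⟩, hB⟩ := g.branch x (fib X a) ((card_fib X a).trans hX) hv
  refine ⟨{p | p.1 = a ∧ p.2 ∈ B}, fun h => hxB h.2, ?_, ⟨(a, b), ⟨rfl, hb⟩, Or.inl ⟨rfl, hab⟩⟩,
    ?_⟩
  · rintro ⟨c, z⟩ hz ⟨h1, h2⟩
    change c = a at h1
    subst h1
    exact hXB z (mem_fib.2 hz) h2
  · rintro ⟨c, z⟩ ⟨h1, h2⟩ ⟨e, y⟩ hy hadj
    change c = a at h1
    subst h1
    rcases hadj with ⟨h3, h4⟩ | ⟨h3, _, _⟩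
    · change c = e at h3
      subst h3
      have h5 : y ∉ B := fun h => hy ⟨rfl, h⟩
      have h6 := hB z h2 y h5 h4
      rw [h6]
    · change z = g.r at h3
      change z ∈ B at h2
      rw [h3] at h2
      exact absurd h2 hr

theorem rprod_core (H : SimpleGraph α) (g : Gadget K d) (Y : Finset (α × g.carrier))
    (hY : Y.card ≤ K) (hne : Y.Nonempty)
    (h : ∀ y ∈ Y, ∃ z ∈ Y, ∃ w ∈ Y, z ≠ w ∧ (rprod H g).Adj y z ∧ (rprod H g).Adj y w) :
    ∃ a, (a, g.r) ∈ Y := by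
  by_contra hcon
  push Not at hcon
  obtain ⟨⟨a, x⟩, hax⟩ := hne
  have hx : x ≠ g.r := fun h => hcon a (h ▸ hax)
  obtain ⟨y, hy, hyr, hthin⟩ := g.thin (fib Y a) ((card_fib Y a).trans hY)
    ⟨x, mem_fib.2 hax, hx⟩
  obtain ⟨⟨b, z⟩, hz, ⟨c, w⟩, hw, hne, h1, h2⟩ := h (a, y) (mem_fib.1 hy)
  rcases h1 with ⟨h3, h4⟩ | ⟨h3, _, _⟩
  · rcases h2 with ⟨h5, h6⟩ | ⟨h5, _, _⟩
    · change a = b at h3
      change a = c at h5
      subst h3
      subst h5
      exact hne (by rw [hthin z (mem_fib.2 hz) w (mem_fib.2 hw) h4 h6])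
    · exact hyr h5
  · exact hyr h3

theorem rprod_level {H : SimpleGraph α} {g : Gadget K d} {β : Type} {H' : SimpleGraph β}
    (f : H' ↪g rprod H g) {u v : β} (p : H'.Walk u v) : g.lev (f v).2 ≤ g.lev (f u).2 + p.length := by
  induction p with
  | nil => simp
  | cons hadj p ih =>
    rename_i u v w
    rw [SimpleGraph.Walk.length_cons]
    have h1 : g.lev (f v).2 ≤ g.lev (f u).2 + 1 := by
      have h2 : (rprod H g).Adj (f u) (f v) := f.map_rel_iff.2 hadj
      rcases h2 with ⟨_, h3⟩ | ⟨h3, h4, _⟩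
      · exact g.lev_adj _ _ h3
      · rw [h4, g.lev_r]
        omega
    omega

end Pool.Agent.TWR
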