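import Pool.Agent.TWR.Defs

/-!
# TWR/Words: involutions without short relations

`X` = the words `w` over `Fin M` with `w.length ≤ r` and no two equal consecutive letters
(`w.IsChain (· ≠ ·)`), a finite type (`List.finite_length_le`). `σ a` sends `a :: w` to `w`; any other word
`w` of length `< r` to `a :: w`; and fixes the remaining words (of length `r`, first letter `≠ a`). It is
an involution. For a chain `w = a₁ … aₗ` with `1 ≤ l ≤ r`, `σ a₁ (σ a₂ (… (σ aₗ [])))` is the word `w`
itself (induction on `w`), so the product is not `1`.
-/

namespace Pool.Agent.TWR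

/-- One step on words: remove the first letter `a`, or add it if the length allows. -/
private def wstep (M r : ℕ) (a : Fin M) (w : List (Fin M)) : List (Fin M) :=
  if w.head? = some a then w.tail else if w.length < r then a :: w else w

private theorem wstep_length {M r : ℕ} (a : Fin M) {w : List (Fin M)} (h : w.length ≤ r) :
    (wstep M r a w).length ≤ r := by
  unfold wstep
  split_ifs with h1 h2
  · rw [List.length_tail]; omega
  · rw [List.length_cons]; omega
  · exact h

private theorem wstep_chain {M r : ℕ} (a : Fin M) {w : List (Fin M)} (h : w.IsChain (· ≠ ·)) :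
    (wstep M r a w).IsChain (· ≠ ·) := by
  unfold wstep
  split_ifs with h1 h2
  · exact h.tail
  · rw [List.isChain_cons]
    refine ⟨?_, h⟩
    intro y hy hay
    apply h1
    rw [hay]
    exact hy
  · exact h

private theorem wstep_wstep {M r : ℕ} (a : Fin M) {w : List (Fin M)} (hl : w.length ≤ r)
    (h : w.IsChain (· ≠ ·)) : wstep M r a (wstep M r a w) = w := by
  by_cases h1 : w.head? = some a
  · obtain ⟨t, rfl⟩ : ∃ t, w = a :: t := by
      cases w with
      | nil => simp at h1
      | cons b t => simp at h1; exact ⟨t, by rw [h1]⟩
    have e1 : wstep M r a (a :: t) = t := by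
      unfold wstep; simp
    rw [e1]
    unfold wstep
    rw [List.isChain_cons] at h
    rw [List.length_cons] at hl
    rw [if_neg, if_pos (by omega)]
    intro h2
    exact h.1 a h2 rfl
  · by_cases h2 : w.length < r
    · have e1 : wstep M r a w = a :: w := by
        unfold wstep; rw [if_neg h1, if_pos h2]
      rw [e1]
      unfold wstep
      simp
    · have e1 : wstep M r a w = w := by
        unfold wstep; rw [if_neg h1, if_neg h2]
      rw [e1, e1]

theorem exists_involutions (M r : ℕ) :
    ∃ (X : Type) (_ : Finite X) (σ : Fin M → Equiv.Perm X), (∀ a, σ a * σ a = 1) ∧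
      ∀ w : List (Fin M), w ≠ [] → w.length ≤ r → w.IsChain (· ≠ ·) → (w.map σ).prod ≠ 1 := by
  classical
  let X : Type := {w : List (Fin M) // w.length ≤ r ∧ w.IsChain (· ≠ ·)}
  have hfin : Finite X := by
    have h := List.finite_length_le (Fin M) r
    exact (h.subset (fun w hw => hw.1) : Set.Finite {w : List (Fin M) | w.length ≤ r ∧ w.IsChain (· ≠ ·)})
  let τ : Fin M → X → X := fun a w => ⟨wstep M r a w.1, wstep_length a w.2.1, wstep_chain a w.2.2⟩
  have hτ : ∀ a, Function.Involutive (τ a) := fun a w => Subtype.ext (wstep_wstep a w.2.1 w.2.2)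
  refine ⟨X, hfin, fun a => (hτ a).toPerm (τ a), ?_, ?_⟩
  · intro a
    exact Equiv.ext (fun w => hτ a w)
  · intro w hw hl hc hp
    let e : X := ⟨[], Nat.zero_le r, List.isChain_nil⟩
    have key : ∀ v : List (Fin M), v.length ≤ r → v.IsChain (· ≠ ·) →
        (((v.map (fun a => (hτ a).toPerm (τ a))).prod e : X) : List (Fin M)) = v := by
      intro v
      induction v with
      | nil => intro _ _; rfl
      | cons a t ih =>
        intro hl hc
        rw [List.length_cons] at hl
        rw [List.isChain_cons] at hc
        have ih' := ih (by omega) hc.2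
        rw [List.map_cons, List.prod_cons, Equiv.Perm.mul_apply]
        show wstep M r a _ = a :: t
        rw [ih']
        unfold wstep
        rw [if_neg (fun h : t.head? = some a => hc.1 a h rfl), if_pos (by omega)]
    have h1 := key w hl hc
    rw [hp] at h1
    exact hw h1.symm

end Pool.Agent.TWR
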